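import Mathlib

/-!
# Module D4/NumP (S): the prime ideals above a prime number

PROOF. `absNorm P = Nat.card (O/P)` (`Submodule.cardQuot_apply`, `Ideal.absNorm_apply`), `O/P` is a finite field of characteristic `q` (see
`exists_prime_mem` in `J/Ord.lean`: `q ^ f`, `f > 0`). Number of primes above `q`: `Ideal.sum_ramification_inertia` (e, f >= 1: `Σ e f = finrank`), or simply:
the product of `k` different maximal ideals above `q` contains `q` (they are pairwise coprime and divide `(q)`), so `q ^ k ≤ ∏ absNorm P_i ∣ absNorm (q) = q ^ n`.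
-/

set_option autoImplicit false

namespace Pool.Agent.SS.DD

open NumberField

variable (M : Type) [Field M] [NumberField M]

theorem exists_below_aux (P : Ideal (𝓞 M)) (hP : P.IsPrime) (h0 : P ≠ ⊥) :
    ∃ p : ℕ, p.Prime ∧ (∀ m : ℕ, (m : 𝓞 M) ∈ P ↔ p ∣ m) ∧
      ∃ f : ℕ, 0 < f ∧ Ideal.absNorm P = p ^ f := by
  have hmax : P.IsMaximal := hP.isMaximal h0
  let _ : Field (𝓞 M ⧸ P) := Ideal.Quotient.field P
  have : Finite (𝓞 M ⧸ P) := Ideal.finiteQuotientOfFreeOfNeBot P h0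
  let _ : Fintype (𝓞 M ⧸ P) := Fintype.ofFinite _
  obtain ⟨p, hc⟩ := CharP.exists (𝓞 M ⧸ P)
  obtain ⟨f, hp, hf⟩ := FiniteField.card (𝓞 M ⧸ P) p
  have hmem : ∀ m : ℕ, (m : 𝓞 M) ∈ P ↔ p ∣ m := by
    intro m
    rw [← CharP.cast_eq_zero_iff (𝓞 M ⧸ P) p m, ← Ideal.Quotient.eq_zero_iff_mem,
      map_natCast]
  have hcard : Nat.card (𝓞 M ⧸ P) = p ^ (f : ℕ) := by
    rw [Nat.card_eq_fintype_card, hf]
  refine ⟨p, hp, hmem, f, f.pos, ?_⟩
  rw [Ideal.absNorm_apply, Submodule.cardQuot_apply]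
  exact hcard

theorem ne_bot_of_mem {q : ℕ} (hq : q.Prime) (P : Ideal (𝓞 M)) (hqP : (q : 𝓞 M) ∈ P) :
    P ≠ ⊥ := by
  rintro rfl
  rw [Ideal.mem_bot] at hqP
  exact hq.ne_zero (by exact_mod_cast hqP)

/-- The norm of a prime ideal above `q` is `q` or at least `q ^ 2`. -/
theorem norm_above {q : ℕ} (hq : q.Prime) (P : Ideal (𝓞 M)) (hP : P.IsPrime) (hqP : (q : 𝓞 M) ∈ P) :
    ∃ f : ℕ, 0 < f ∧ Ideal.absNorm P = q ^ f := by
  obtain ⟨p, hp, hmem, f, hf, hN⟩ := exists_below_aux M P hP (ne_bot_of_mem M hq P hqP)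
  have : p = q := (Nat.prime_dvd_prime_iff_eq hp hq).mp ((hmem q).mp hqP)
  subst this
  exact ⟨f, hf, hN⟩

theorem card_above_finset {q : ℕ} (hq : q.Prime) (S : Finset (Ideal (𝓞 M)))
    (hS : ∀ P ∈ S, P.IsPrime ∧ (q : 𝓞 M) ∈ P) : S.card ≤ Module.finrank ℚ M := by
  have hdvd : (∏ P ∈ S, P) ∣ Ideal.span {(q : 𝓞 M)} := by
    refine Finset.prod_primes_dvd _ (fun P hP => ?_) (fun P hP => ?_)
    · exact Ideal.prime_of_isPrime (ne_bot_of_mem M hq P (hS P hP).2) (hS P hP).1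
    · rw [Ideal.dvd_span_singleton]
      exact (hS P hP).2
  have h1 : Ideal.absNorm (∏ P ∈ S, P) ∣ Ideal.absNorm (Ideal.span {(q : 𝓞 M)}) :=
    map_dvd Ideal.absNorm hdvd
  have h2 : Ideal.absNorm (Ideal.span {(q : 𝓞 M)}) = q ^ Module.finrank ℚ M := by
    rw [Ideal.absNorm_span_natCast, RingOfIntegers.rank]
  rw [h2, map_prod] at h1
  have h3 : q ^ S.card ≤ ∏ P ∈ S, Ideal.absNorm P := by
    rw [← Finset.prod_const]
    refine Finset.prod_le_prod' (fun P hP => ?_)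
    obtain ⟨f, hf, hN⟩ := norm_above M hq P (hS P hP).1 (hS P hP).2
    rw [hN]
    exact Nat.le_self_pow hf.ne' q
  have h4 := h3.trans (Nat.le_of_dvd (pow_pos hq.pos _) h1)
  exact (Nat.pow_le_pow_iff_right hq.one_lt).mp h4

/-- There are at most `n` prime ideals above `q`. -/
theorem card_above {q : ℕ} (hq : q.Prime) :
    {P : Ideal (𝓞 M) | P.IsPrime ∧ (q : 𝓞 M) ∈ P}.Finite ∧
      {P : Ideal (𝓞 M) | P.IsPrime ∧ (q : 𝓞 M) ∈ P}.ncard ≤ Module.finrank ℚ M := by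
  have hfin : {P : Ideal (𝓞 M) | P.IsPrime ∧ (q : 𝓞 M) ∈ P}.Finite := by
    by_contra hinf
    obtain ⟨S, hS, hc⟩ := Set.Infinite.exists_subset_card_eq hinf (Module.finrank ℚ M + 1)
    have := card_above_finset M hq S (fun P hP => hS hP)
    omega
  refine ⟨hfin, ?_⟩
  rw [Set.ncard_eq_toFinset_card _ hfin]
  exact card_above_finset M hq _ (fun P hP => by simpa using hP)

/-- Every nonzero prime ideal lies above a prime number. -/
theorem exists_below (P : Ideal (𝓞 M)) (hP : P.IsPrime) (h0 : P ≠ ⊥) :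
    ∃ q : ℕ, q.Prime ∧ (q : 𝓞 M) ∈ P := by
  obtain ⟨p, hp, hmem, -⟩ := exists_below_aux M P hP h0
  exact ⟨p, hp, (hmem p).mpr dvd_rfl⟩

end Pool.Agent.SS.DD
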