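import Mathlib

/-!
# Module D4/Trans (helper97): from coordinate vectors to pairs of integers of `K`.
-/

set_option autoImplicit false

namespace Pool.Agent.SS.DD

open NumberField

theorem transfer {K : Type} [Field K] [NumberField K] {ι : Type} [Fintype ι]
    (b : Module.Basis ι ℤ (𝓞 K)) (Q : 𝓞 K → 𝓞 K → Prop) (ε : ℝ)
    (h : ∃ L : ℕ, ∀ (a : ι ⊕ ι → ℤ) (T : ι ⊕ ι → ℕ), (∀ i, L ≤ T i) →
      {z : ι ⊕ ι → ℤ | (∀ i, a i ≤ z i ∧ z i < a i + T i) ∧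
        ¬ Q (∑ i, z (Sum.inl i) • b i) (∑ i, z (Sum.inr i) • b i)}.Finite ∧
      ({z : ι ⊕ ι → ℤ | (∀ i, a i ≤ z i ∧ z i < a i + T i) ∧
        ¬ Q (∑ i, z (Sum.inl i) • b i) (∑ i, z (Sum.inr i) • b i)}.ncard : ℝ) ≤
        ε * ∏ i, (T i : ℝ)) :
    ∃ L : ℕ, ∀ (a a' : ι → ℤ) (T T' : ι → ℕ), (∀ i, L ≤ T i ∧ L ≤ T' i) →
      (1 - ε) * ((∏ i, (T i : ℝ)) * ∏ i, (T' i : ℝ)) ≤
        ({P : 𝓞 K × 𝓞 K | (∀ i, a i ≤ b.repr P.1 i ∧ b.repr P.1 i < a i + T i) ∧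
          (∀ i, a' i ≤ b.repr P.2 i ∧ b.repr P.2 i < a' i + T' i) ∧
          Q P.1 P.2}.ncard : ℝ) := by
  classical
  obtain ⟨L, hL⟩ := h
  refine ⟨L, fun a a' T T' hT => ?_⟩
  obtain ⟨hfin, hcard⟩ := hL (Sum.elim a a') (Sum.elim T T') (by
    rintro (i | i)
    · exact (hT i).1
    · exact (hT i).2)
  rw [Fintype.prod_sum_type] at hcard
  simp only [Sum.elim_inl, Sum.elim_inr] at hcard
  let Φ : (ι ⊕ ι → ℤ) → 𝓞 K × 𝓞 K := fun z =>
    (∑ i, z (Sum.inl i) • b i, ∑ i, z (Sum.inr i) • b i)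
  have hrepr : ∀ (z : ι → ℤ) (i : ι), b.repr (∑ i, z i • b i) i = z i := by
    intro z i
    exact congrFun (b.repr_sum_self z) i
  have hinj : Function.Injective Φ := by
    intro z z' h
    have h1 : ∑ i, z (Sum.inl i) • b i = ∑ i, z' (Sum.inl i) • b i := congrArg Prod.fst h
    have h2 : ∑ i, z (Sum.inr i) • b i = ∑ i, z' (Sum.inr i) • b i := congrArg Prod.snd h
    funext s
    rcases s with i | i
    · have h3 := hrepr (fun i => z (Sum.inl i)) i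
      rw [h1, hrepr (fun i => z' (Sum.inl i)) i] at h3
      exact h3.symm
    · have h3 := hrepr (fun i => z (Sum.inr i)) i
      rw [h2, hrepr (fun i => z' (Sum.inr i)) i] at h3
      exact h3.symm
  set box : Set (ι ⊕ ι → ℤ) :=
    {z | ∀ i, Sum.elim a a' i ≤ z i ∧ z i < Sum.elim a a' i + Sum.elim T T' i} with hbox
  have hboxF : box = ((Fintype.piFinset fun i : ι ⊕ ι =>
      Finset.Ico (Sum.elim a a' i) (Sum.elim a a' i + (Sum.elim T T' i : ℕ)) :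
        Finset (ι ⊕ ι → ℤ)) : Set (ι ⊕ ι → ℤ)) := by
    ext z
    simp [hbox, Fintype.mem_piFinset]
  have hboxfin : box.Finite := by
    rw [hboxF]
    exact Finset.finite_toSet _
  have hboxcard : (box.ncard : ℝ) = (∏ i, (T i : ℝ)) * ∏ i, (T' i : ℝ) := by
    rw [hboxF, Set.ncard_coe_finset, Fintype.card_piFinset]
    simp only [Int.card_Ico, add_sub_cancel_left, Int.toNat_natCast]
    rw [Fintype.prod_sum_type]
    push_cast
    rfl
  set exc : Set (ι ⊕ ι → ℤ) := {z | (∀ i, Sum.elim a a' i ≤ z i ∧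
    z i < Sum.elim a a' i + Sum.elim T T' i) ∧
    ¬ Q (∑ i, z (Sum.inl i) • b i) (∑ i, z (Sum.inr i) • b i)} with hexc
  have hsub : exc ⊆ box := fun z hz => hz.1
  have hdiff : (box \ exc).ncard = box.ncard - exc.ncard := Set.ncard_sdiff hsub hfin
  have hle : exc.ncard ≤ box.ncard := Set.ncard_le_ncard hsub hboxfin
  have himg : Φ '' (box \ exc) ⊆
      {P : 𝓞 K × 𝓞 K | (∀ i, a i ≤ b.repr P.1 i ∧ b.repr P.1 i < a i + T i) ∧
          (∀ i, a' i ≤ b.repr P.2 i ∧ b.repr P.2 i < a' i + T' i) ∧ Q P.1 P.2} := by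
    rintro _ ⟨z, ⟨hz, hzn⟩, rfl⟩
    have hzE : Q (∑ i, z (Sum.inl i) • b i) (∑ i, z (Sum.inr i) • b i) := by
      by_contra h
      exact hzn ⟨hz, h⟩
    refine ⟨fun i => ?_, fun i => ?_, hzE⟩
    · have := hz (Sum.inl i)
      simp only [Sum.elim_inl] at this
      simp only [Φ]
      rw [hrepr (fun i => z (Sum.inl i)) i]
      exact this
    · have := hz (Sum.inr i)
      simp only [Sum.elim_inr] at this
      simp only [Φ]
      rw [hrepr (fun i => z (Sum.inr i)) i]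
      exact this
  have hGfin : {P : 𝓞 K × 𝓞 K | (∀ i, a i ≤ b.repr P.1 i ∧ b.repr P.1 i < a i + T i) ∧
          (∀ i, a' i ≤ b.repr P.2 i ∧ b.repr P.2 i < a' i + T' i) ∧ Q P.1 P.2}.Finite := by
    apply (hboxfin.image Φ).subset
    rintro ⟨A, B⟩ ⟨hA, hB, -⟩
    refine ⟨Sum.elim (fun i => b.repr A i) (fun i => b.repr B i), ?_, ?_⟩
    · rintro (i | i)
      · simpa using hA i
      · simpa using hB i
    · simp only [Φ, Sum.elim_inl, Sum.elim_inr]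
      rw [b.sum_repr, b.sum_repr]
  have h1 := Set.ncard_le_ncard himg hGfin
  rw [Set.ncard_image_of_injective _ hinj, hdiff] at h1
  have h2 : (box.ncard : ℝ) - exc.ncard ≤
      ({P : 𝓞 K × 𝓞 K | (∀ i, a i ≤ b.repr P.1 i ∧ b.repr P.1 i < a i + T i) ∧
          (∀ i, a' i ≤ b.repr P.2 i ∧ b.repr P.2 i < a' i + T' i) ∧ Q P.1 P.2}.ncard : ℝ) := by
    rw [← Nat.cast_sub hle]
    exact_mod_cast h1
  rw [← hboxcard] at hcard ⊢
  linarith

end Pool.Agent.SS.DD
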