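import Mathlib

/-!
# Module D4/Crt (S-M): avoiding residue classes modulo several primes

PROOF. Induction on `S` (`Finset.induction_on`, the statement for the product `∏ q ∈ S, q`). `S = ∅`: `m = 1`, `U = univ`, one element. Step: `m' = q * m`, coprime
(`Nat.Coprime.prod_right`; different primes), `ZMod.chineseRemainder : ZMod (q * m) ≃+* ZMod q × ZMod m` gives a bijection
`(ι → ZMod (q * m)) ≃ (ι → ZMod q) × (ι → ZMod m)`; `U' = preimage of (G q)ᶜ ×ˢ U`; its number of elements is the product, and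
`(G q)ᶜ` has `q ^ card ι - (G q).ncard` elements (`Set.ncard_add_ncard_compl`, `ZMod.card`). Compatibility with `z : ι → ℤ`: `map_intCast`.
-/

set_option autoImplicit false

namespace Pool.Agent.SS.DD

open Finset

private theorem aux (ι : Type) [Fintype ι] (G : ∀ q : ℕ, Set (ι → ZMod q)) (S : Finset ℕ) :
    (∀ q ∈ S, q.Prime) → ∀ m : ℕ, m = ∏ q ∈ S, q →
    ∃ U : Set (ι → ZMod m),
      (U.ncard : ℝ) = ∏ q ∈ S, ((q : ℝ) ^ Fintype.card ι - ((G q).ncard : ℝ)) ∧
      ∀ z : ι → ℤ, (∀ q ∈ S, (fun i => (z i : ZMod q)) ∉ G q) →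
        (fun i => (z i : ZMod m)) ∈ U := by
  classical
  induction S using Finset.induction_on with
  | empty =>
    intro _ m hm
    rw [Finset.prod_empty] at hm
    subst hm
    refine ⟨Set.univ, ?_, fun z _ => Set.mem_univ _⟩
    rw [Set.ncard_univ, Nat.card_unique]
    simp
  | insert q S hqS ih =>
    intro hS m' hm'
    obtain ⟨m, hm⟩ : ∃ m : ℕ, m = ∏ q ∈ S, q := ⟨_, rfl⟩
    obtain ⟨U, hU, hz⟩ := ih (fun p hp => hS p (Finset.mem_insert_of_mem hp)) m hm
    rw [Finset.prod_insert hqS, ← hm] at hm'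
    subst hm'
    have hq := hS q (Finset.mem_insert_self _ _)
    have : NeZero q := ⟨hq.ne_zero⟩
    have hcop : q.Coprime m := by
      rw [hm]
      refine Nat.Coprime.prod_right fun p hp => ?_
      rw [Nat.coprime_primes hq (hS p (Finset.mem_insert_of_mem hp))]
      rintro rfl
      exact hqS hp
    let e := ZMod.chineseRemainder hcop
    let F : (ι → ZMod (q * m)) ≃ (ι → ZMod q) × (ι → ZMod m) :=
      (Equiv.piCongrRight fun _ => e.toEquiv).trans (Equiv.arrowProdEquivProdArrow _ _ _)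
    refine ⟨F ⁻¹' ((G q)ᶜ ×ˢ U), ?_, ?_⟩
    · rw [Finset.prod_insert hqS, ← hU]
      have h1 : (F ⁻¹' ((G q)ᶜ ×ˢ U)).ncard = ((G q)ᶜ ×ˢ U).ncard := by
        rw [← F.image_symm_eq_preimage]
        exact Set.ncard_image_of_injective _ F.symm.injective
      rw [h1, Set.ncard_prod]
      have h2 := Set.ncard_add_ncard_compl (G q)
      rw [Nat.card_fun, Nat.card_zmod, Nat.card_eq_fintype_card] at h2
      have h3 : (((G q).ncard : ℝ) + ((G q)ᶜ.ncard : ℝ)) = (q : ℝ) ^ Fintype.card ι := by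
        exact_mod_cast h2
      push_cast
      rw [← h3]
      ring
    · intro z hzz
      have h1 := hz z fun p hp => hzz p (Finset.mem_insert_of_mem hp)
      have h2 := hzz q (Finset.mem_insert_self _ _)
      show F (fun i => (z i : ZMod (q * m))) ∈ (G q)ᶜ ×ˢ U
      have h3 : F (fun i => (z i : ZMod (q * m))) =
          (fun i => (z i : ZMod q), fun i => (z i : ZMod m)) := by
        ext i
        · show (e (z i : ZMod (q * m))).1 = _
          rw [map_intCast]
          rfl
        · show (e (z i : ZMod (q * m))).2 = _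
          rw [map_intCast]
          rfl
      rw [h3]
      exact ⟨h2, h1⟩

theorem crt_avoid (ι : Type) [Fintype ι] (S : Finset ℕ) (hS : ∀ q ∈ S, q.Prime)
    (G : ∀ q : ℕ, Set (ι → ZMod q)) :
    ∃ U : Set (ι → ZMod (∏ q ∈ S, q)),
      (U.ncard : ℝ) = ∏ q ∈ S, ((q : ℝ) ^ Fintype.card ι - ((G q).ncard : ℝ)) ∧
      ∀ z : ι → ℤ, (∀ q ∈ S, (fun i => (z i : ZMod q)) ∉ G q) →
        (fun i => (z i : ZMod (∏ q ∈ S, q))) ∈ U :=
  aux ι G S hS _ rfl

end Pool.Agent.SS.DD
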