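import Mathlib
import Pool.Agent.Work.MP_a5099b_nt.D4.Crt

/-!
# Module D4/DensU: uniform version of D4/Dens (all boxes with long sides). helper97.
-/

set_option autoImplicit false

namespace Pool.Agent.SS.DD

open Finset

/-- Numbers of an interval in a residue class. -/
private theorem card_class (m : ℕ) (hm : 0 < m) (r : ZMod m) (a : ℤ) (T : ℕ) :
    (((Finset.Ico a (a + T)).filter fun x : ℤ => (x : ZMod m) = r).card : ℝ) ≤ (T : ℝ) / m + 1 := by
  have hm' : (0 : ℤ) < m := by exact_mod_cast hm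
  have : NeZero m := ⟨hm.ne'⟩
  obtain ⟨r', rfl⟩ : ∃ r' : ℤ, (r' : ZMod m) = r := ⟨r.val, by simp⟩
  have h1 : ((Finset.Ico a (a + T)).filter fun x : ℤ => (x : ZMod m) = (r' : ZMod m)) =
      (Finset.Ico a (a + T)).filter fun x : ℤ => x ≡ r' [ZMOD m] := by
    apply Finset.filter_congr
    intro x _
    exact ZMod.intCast_eq_intCast_iff _ _ _
  rw [h1]
  have h2 := Int.Ico_filter_modEq_card a (a + T) hm' r'
  have h3 : ((((Finset.Ico a (a + T)).filter fun x : ℤ => x ≡ r' [ZMOD m]).card : ℤ) : ℚ) ≤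
      (T : ℚ) / m + 1 := by
    rw [h2, Int.cast_max, max_le_iff]
    constructor
    · have h4 := Int.ceil_lt_add_one ((((a + T : ℤ) : ℚ) - r') / ((m : ℤ) : ℚ))
      have h5 := Int.le_ceil (((a : ℚ) - r') / ((m : ℤ) : ℚ))
      push_cast at h4 h5 ⊢
      have h6 : ((a : ℚ) + T - r') / (m : ℚ) = ((a : ℚ) - r') / (m : ℚ) + (T : ℚ) / m := by ring
      rw [h6] at h4 ⊢
      linarith
    · push_cast
      positivity
  have h4 : (((((Finset.Ico a (a + T)).filter fun x : ℤ => x ≡ r' [ZMOD m]).card : ℤ) : ℚ) : ℝ) ≤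
      (((T : ℚ) / m + 1 : ℚ) : ℝ) := by exact_mod_cast h3
  push_cast at h4
  exact h4

private theorem box_class_u (ι : Type) [Fintype ι] (m : ℕ) (hm : 0 < m) (U : Set (ι → ZMod m))
    (a : ι → ℤ) (T : ι → ℕ) :
    {z : ι → ℤ | (∀ i, a i ≤ z i ∧ z i < a i + T i) ∧ (fun i => (z i : ZMod m)) ∈ U}.Finite ∧
    ({z : ι → ℤ | (∀ i, a i ≤ z i ∧ z i < a i + T i) ∧ (fun i => (z i : ZMod m)) ∈ U}.ncard : ℝ) ≤
      (U.ncard : ℝ) * ∏ i, ((T i : ℝ) / m + 1) := by
  classical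
  have : NeZero m := ⟨hm.ne'⟩
  have hU : U.Finite := Set.toFinite U
  let F : Finset (ι → ℤ) := hU.toFinset.biUnion fun u =>
    Fintype.piFinset fun i => (Finset.Ico (a i) (a i + T i)).filter fun x : ℤ => (x : ZMod m) = u i
  have hF : {z : ι → ℤ | (∀ i, a i ≤ z i ∧ z i < a i + T i) ∧ (fun i => (z i : ZMod m)) ∈ U} ⊆
      (F : Set (ι → ℤ)) := by
    rintro z ⟨hz, hzU⟩
    simp only [F, Finset.coe_biUnion, Set.mem_iUnion]
    refine ⟨fun i => (z i : ZMod m), ?_, ?_⟩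
    · exact hU.mem_toFinset.mpr hzU
    · simp only [Finset.mem_coe, Fintype.mem_piFinset, Finset.mem_filter, Finset.mem_Ico, and_true]
      exact hz
  refine ⟨F.finite_toSet.subset hF, ?_⟩
  have h1 : {z : ι → ℤ | (∀ i, a i ≤ z i ∧ z i < a i + T i) ∧ (fun i => (z i : ZMod m)) ∈ U}.ncard ≤
      F.card := by
    rw [← Set.ncard_coe_finset]
    exact Set.ncard_le_ncard hF F.finite_toSet
  have h2 : (F.card : ℝ) ≤ ∑ u ∈ hU.toFinset, ∏ i, ((T i : ℝ) / m + 1) := by
    have h3 : F.card ≤ ∑ u ∈ hU.toFinset, (Fintype.piFinset fun i =>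
        (Finset.Ico (a i) (a i + T i)).filter fun x : ℤ => (x : ZMod m) = u i).card :=
      Finset.card_biUnion_le
    calc (F.card : ℝ) ≤ ((∑ u ∈ hU.toFinset, (Fintype.piFinset fun i =>
        (Finset.Ico (a i) (a i + T i)).filter fun x : ℤ => (x : ZMod m) = u i).card : ℕ) : ℝ) := by
          exact_mod_cast h3
      _ ≤ _ := by
        rw [Nat.cast_sum]
        apply Finset.sum_le_sum
        intro u _
        rw [Fintype.card_piFinset, Nat.cast_prod]
        apply Finset.prod_le_prod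
        · intro i _
          positivity
        · intro i _
          exact card_class m hm (u i) (a i) (T i)
  rw [Finset.sum_const, nsmul_eq_mul, ← Set.ncard_eq_toFinset_card U hU] at h2
  exact le_trans (by exact_mod_cast h1) h2

theorem density_uniform (ι : Type) [Fintype ι] (E : Set (ι → ℤ)) (c : ℝ) (hc : 0 < c)
    (P : ℕ → Prop) (G : ∀ q : ℕ, Set (ι → ZMod q))
    (hP : ∀ R : ℝ, ∃ S : Finset ℕ, (∀ q ∈ S, q.Prime ∧ P q) ∧ R ≤ ∑ q ∈ S, (1 : ℝ) / q)
    (hG : ∀ q : ℕ, q.Prime → P q → c / q * (q : ℝ) ^ Fintype.card ι ≤ ((G q).ncard : ℝ))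
    (hE : ∀ q : ℕ, q.Prime → P q → ∀ z ∈ E, (fun i => (z i : ZMod q)) ∉ G q)
    (ε : ℝ) (hε : 0 < ε) :
    ∃ L : ℕ, ∀ (a : ι → ℤ) (T : ι → ℕ), (∀ i, L ≤ T i) →
      {z : ι → ℤ | (∀ i, a i ≤ z i ∧ z i < a i + T i) ∧ z ∈ E}.Finite ∧
      ({z : ι → ℤ | (∀ i, a i ≤ z i ∧ z i < a i + T i) ∧ z ∈ E}.ncard : ℝ) ≤
        ε * ∏ i, (T i : ℝ) := by
  classical
  -- the exponent
  obtain ⟨R, hR⟩ : ∃ R : ℝ, Real.exp (-(c * R)) ≤ ε / 3 := by
    refine ⟨-Real.log (ε / 3) / c, ?_⟩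
    have : -(c * (-Real.log (ε / 3) / c)) = Real.log (ε / 3) := by
      field_simp
    rw [this, Real.exp_log (by positivity)]
  obtain ⟨S, hS, hRS⟩ := hP R
  obtain ⟨m, hmdef, U, hU, hUmem⟩ : ∃ m : ℕ, m = ∏ q ∈ S, q ∧ ∃ U : Set (ι → ZMod m),
      (U.ncard : ℝ) = ∏ q ∈ S, ((q : ℝ) ^ Fintype.card ι - ((G q).ncard : ℝ)) ∧
      ∀ z : ι → ℤ, (∀ q ∈ S, (fun i => (z i : ZMod q)) ∉ G q) →
        (fun i => (z i : ZMod m)) ∈ U :=
    ⟨_, rfl, crt_avoid ι S (fun q hq => (hS q hq).1) G⟩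
  set d : ℕ := Fintype.card ι with hd
  have hm : 0 < m := by
    rw [hmdef]
    exact Finset.prod_pos fun q hq => (hS q hq).1.pos
  have hmR : (0 : ℝ) < m := by exact_mod_cast hm
  have hUb : (U.ncard : ℝ) ≤ ε / 3 * (m : ℝ) ^ d := by
    rw [hU]
    have h1 : ∏ q ∈ S, ((q : ℝ) ^ d - ((G q).ncard : ℝ)) ≤
        ∏ q ∈ S, ((q : ℝ) ^ d * Real.exp (-(c / q))) := by
      apply Finset.prod_le_prod
      · intro q hq
        have : NeZero q := ⟨(hS q hq).1.ne_zero⟩
        have h2 : (G q).ncard ≤ q ^ d := by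
          calc (G q).ncard ≤ (Set.univ : Set (ι → ZMod q)).ncard :=
                Set.ncard_le_ncard (Set.subset_univ _) (Set.toFinite _)
            _ = q ^ d := by
                rw [Set.ncard_univ, Nat.card_eq_fintype_card, Fintype.card_fun, ZMod.card]
        have h3 : ((G q).ncard : ℝ) ≤ (q : ℝ) ^ d := by exact_mod_cast h2
        linarith
      · intro q hq
        have h2 := hG q (hS q hq).1 (hS q hq).2
        have h3 : 1 - c / q ≤ Real.exp (-(c / q)) := by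
          have := Real.add_one_le_exp (-(c / q))
          linarith
        have h4 : (0 : ℝ) ≤ (q : ℝ) ^ d := by positivity
        nlinarith [mul_le_mul_of_nonneg_left h3 h4]
    refine h1.trans ?_
    rw [Finset.prod_mul_distrib, ← Real.exp_sum, Finset.prod_pow]
    have h5 : ∑ q ∈ S, -(c / (q : ℝ)) = -(c * ∑ q ∈ S, (1 : ℝ) / q) := by
      rw [Finset.mul_sum, ← Finset.sum_neg_distrib]
      apply Finset.sum_congr rfl
      intro q _
      ring
    rw [h5]
    have h6 : Real.exp (-(c * ∑ q ∈ S, (1 : ℝ) / q)) ≤ ε / 3 := by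
      refine le_trans (Real.exp_le_exp.mpr ?_) hR
      nlinarith
    have h7 : (m : ℝ) = ∏ q ∈ S, (q : ℝ) := by
      rw [hmdef]
      push_cast
      rfl
    rw [← h7, mul_comm]
    exact mul_le_mul_of_nonneg_right h6 (by positivity)
  refine ⟨(d + 1) * m, fun a T hT => ?_⟩
  obtain ⟨hfin, hcard⟩ := box_class_u ι m hm U a T
  have hsub : {z : ι → ℤ | (∀ i, a i ≤ z i ∧ z i < a i + T i) ∧ z ∈ E} ⊆
      {z : ι → ℤ | (∀ i, a i ≤ z i ∧ z i < a i + T i) ∧ (fun i => (z i : ZMod m)) ∈ U} := by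
    rintro z ⟨hz, hzE⟩
    exact ⟨hz, hUmem z fun q hq => hE q (hS q hq).1 (hS q hq).2 z hzE⟩
  refine ⟨hfin.subset hsub, ?_⟩
  have h1 : ({z : ι → ℤ | (∀ i, a i ≤ z i ∧ z i < a i + T i) ∧ z ∈ E}.ncard : ℝ) ≤
      (U.ncard : ℝ) * ∏ i, ((T i : ℝ) / m + 1) :=
    le_trans (by exact_mod_cast Set.ncard_le_ncard hsub hfin) hcard
  refine h1.trans ?_
  have hprod : ∏ i, ((T i : ℝ) / m + 1) ≤ ∏ i, ((T i : ℝ) / m * (1 + 1 / (d + 1))) := by
    apply Finset.prod_le_prod
    · intro i _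
      positivity
    · intro i _
      have h2 : (((d + 1) * m : ℕ) : ℝ) ≤ (T i : ℝ) := by exact_mod_cast hT i
      push_cast at h2
      have h3 : (1 : ℝ) ≤ (T i : ℝ) / m * (1 / (d + 1)) := by
        rw [div_mul_div_comm, mul_one, le_div_iff₀ (by positivity)]
        linarith
      linarith [mul_add ((T i : ℝ) / m) 1 (1 / (d + 1)), mul_one ((T i : ℝ) / m)]
  have hpow : ∏ i : ι, ((T i : ℝ) / m * (1 + 1 / (d + 1))) ≤ (∏ i, (T i : ℝ)) / (m : ℝ) ^ d * 3 := by
    rw [Finset.prod_mul_distrib, Finset.prod_div_distrib, Finset.prod_const, Finset.prod_const,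
      Finset.card_univ, ← hd]
    apply mul_le_mul_of_nonneg_left
    · have h2 : (1 + 1 / ((d : ℝ) + 1)) ^ d ≤ Real.exp 1 := by
        calc (1 + 1 / ((d : ℝ) + 1)) ^ d ≤ (Real.exp (1 / ((d : ℝ) + 1))) ^ d := by
              apply pow_le_pow_left₀ (by positivity)
              have := Real.add_one_le_exp (1 / ((d : ℝ) + 1))
              linarith
          _ = Real.exp (d * (1 / ((d : ℝ) + 1))) := by
              rw [← Real.exp_nat_mul]
          _ ≤ Real.exp 1 := by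
              apply Real.exp_le_exp.mpr
              rw [mul_one_div, div_le_one (by positivity)]
              linarith
      have h3 := Real.exp_one_lt_d9
      linarith
    · positivity
  calc (U.ncard : ℝ) * ∏ i, ((T i : ℝ) / m + 1)
      ≤ (ε / 3 * (m : ℝ) ^ d) * ((∏ i, (T i : ℝ)) / (m : ℝ) ^ d * 3) := by
        apply mul_le_mul hUb (hprod.trans hpow)
        · apply Finset.prod_nonneg
          intro i _
          positivity
        · positivity
    _ = ε * ∏ i, (T i : ℝ) := by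
        field_simp

end Pool.Agent.SS.DD
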