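import Mathlib

/-!
# Module D4/NormQ (S-M): unramified primes

PROOF. `(q)` is a nonzero ideal, its prime divisors are the `v` with `q ∈ v`. Finitely many. Unramified: `(q) = ∏ v` (each with exponent one: `v ^ 2 ∤ (q)`, since `v ^ 2 ∣ (q)` iff `q ∈ v ^ 2`;
unique factorization, e.g. the finite product `∏ v` divides `(q)` by coprimality, `(q) = (∏ v) * J`, a prime divisor of `J` is some `v`, so `v ^ 2 ∣ (q)`; so `J = ⊤`). Take `absNorm`:
`absNorm (q) = q ^ n` (`Ideal.absNorm_span_singleton`, `Algebra.norm_algebraMap`, `RingOfIntegers.rank`), `absNorm v = Nat.card (O/v)` (`Ideal.absNorm_apply`, `Submodule.cardQuot_apply`).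
All but finitely many primes are unramified: `q ∈ v ^ 2` implies `q ∣ discr` (Mathlib: `NumberField.discr`... ) or better elementary: see below.
`V.card ≤ n`: `q ^ V.card ≤ ∏ Nat.card (O/v) ∣ q ^ n`.
`unram`: `NumberField.not_dvd_discr_iff_forall_pow_mem` or `differentIdeal`-based lemmas of Mathlib (`pow_sub_one_dvd_differentIdeal`, `NumberField.absNorm_differentIdeal`); or: `v ^ 2 ∣ (q)` implies
that `v` divides the different ideal (`dvd_differentIdeal_iff`, `pow_sub_one_dvd_differentIdeal`), which is a nonzero ideal: finitely many `v`, hence finitely many `q`.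
-/

set_option autoImplicit false

namespace Pool.Agent.SS.DD

open NumberField IsDedekindDomain

variable (K : Type) [Field K] [NumberField K]

theorem nq_span_ne_bot {q : ℕ} (hq : q.Prime) : Ideal.span {(q : 𝓞 K)} ≠ ⊥ := by
  rw [Ne, Ideal.span_singleton_eq_bot]
  exact_mod_cast hq.ne_zero

theorem nq_absNorm_span (q : ℕ) :
    Ideal.absNorm (Ideal.span {(q : 𝓞 K)}) = q ^ Module.finrank ℚ K := by
  rw [Ideal.absNorm_span_singleton]
  have h : (q : 𝓞 K) = algebraMap ℤ (𝓞 K) (q : ℤ) := by simp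
  rw [h, Algebra.norm_algebraMap, RingOfIntegers.rank]
  simp [Int.natAbs_pow]

theorem nq_absNorm_pow {q : ℕ} (hq : q.Prime) (v : HeightOneSpectrum (𝓞 K))
    (hv : (q : 𝓞 K) ∈ v.asIdeal) : q ∣ Ideal.absNorm v.asIdeal := by
  have h1 : Ideal.absNorm v.asIdeal ∣ q ^ Module.finrank ℚ K := by
    rw [← nq_absNorm_span K q]
    exact Ideal.absNorm_dvd_absNorm_of_le ((Ideal.span_singleton_le_iff_mem _).2 hv)
  obtain ⟨k, -, hk⟩ := (Nat.dvd_prime_pow hq).1 h1
  have hk0 : k ≠ 0 := by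
    rintro rfl
    rw [pow_zero, Ideal.absNorm_eq_one_iff] at hk
    exact v.isPrime.ne_top hk
  rw [hk]
  exact dvd_pow_self q hk0

theorem nq_absNorm_card (v : HeightOneSpectrum (𝓞 K)) :
    Ideal.absNorm v.asIdeal = Nat.card (𝓞 K ⧸ v.asIdeal) := by
  rw [Ideal.absNorm_apply, Submodule.cardQuot_apply]

theorem above_finite {q : ℕ} (hq : q.Prime) :
    {v : HeightOneSpectrum (𝓞 K) | (q : 𝓞 K) ∈ v.asIdeal}.Finite := by
  have h := Ideal.finite_factors (R := 𝓞 K) (nq_span_ne_bot K hq)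
  refine h.subset ?_
  intro v hv
  exact Ideal.dvd_iff_le.2 ((Ideal.span_singleton_le_iff_mem _).2 hv)

theorem nq_prod {q : ℕ} (hq : q.Prime)
    (hur : ∀ v : HeightOneSpectrum (𝓞 K), (q : 𝓞 K) ∈ v.asIdeal → (q : 𝓞 K) ∉ v.asIdeal ^ 2)
    (V : Finset (HeightOneSpectrum (𝓞 K))) (hV : ∀ v, v ∈ V ↔ (q : 𝓞 K) ∈ v.asIdeal) :
    Ideal.span {(q : 𝓞 K)} = ∏ v ∈ V, v.asIdeal := by
  classical
  have hinj : Function.Injective
      (fun v : HeightOneSpectrum (𝓞 K) => v.asIdeal) := fun v w h => HeightOneSpectrum.ext h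
  have h1 : ∏ v ∈ V, v.asIdeal ∣ Ideal.span {(q : 𝓞 K)} := by
    have h2 := Finset.prod_primes_dvd (s := V.image (fun v => v.asIdeal))
      (Ideal.span {(q : 𝓞 K)}) (by
        intro a ha
        obtain ⟨v, -, rfl⟩ := Finset.mem_image.1 ha
        exact v.prime) (by
        intro a ha
        obtain ⟨v, hv, rfl⟩ := Finset.mem_image.1 ha
        exact Ideal.dvd_iff_le.2 ((Ideal.span_singleton_le_iff_mem _).2 ((hV v).1 hv)))
    rwa [Finset.prod_image (fun a _ b _ h => hinj h)] at h2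
  obtain ⟨J, hJ⟩ := h1
  by_cases hJt : J = ⊤
  · rw [hJ, hJt, Ideal.mul_top]
  · exfalso
    obtain ⟨M, hM, hJM⟩ := Ideal.exists_le_maximal J hJt
    have hqM : (q : 𝓞 K) ∈ M := by
      have : (q : 𝓞 K) ∈ Ideal.span {(q : 𝓞 K)} := Ideal.mem_span_singleton_self _
      rw [hJ] at this
      exact hJM (Ideal.mul_le_right this)
    have hM0 : M ≠ ⊥ := by
      rintro rfl
      have : (q : 𝓞 K) = 0 := by simpa using hqM
      exact hq.ne_zero (by exact_mod_cast this)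
    let v : HeightOneSpectrum (𝓞 K) := ⟨M, hM.isPrime, hM0⟩
    have hvV : v ∈ V := (hV v).2 hqM
    have hd : v.asIdeal ^ 2 ∣ Ideal.span {(q : 𝓞 K)} := by
      rw [hJ, pow_two]
      exact mul_dvd_mul (Finset.dvd_prod_of_mem (fun v : HeightOneSpectrum (𝓞 K) => v.asIdeal) hvV)
        (Ideal.dvd_iff_le.2 hJM)
    exact hur v hqM ((Ideal.span_singleton_le_iff_mem _).1 (Ideal.dvd_iff_le.1 hd))

theorem prod_card {q : ℕ} (hq : q.Prime)
    (hur : ∀ v : HeightOneSpectrum (𝓞 K), (q : 𝓞 K) ∈ v.asIdeal → (q : 𝓞 K) ∉ v.asIdeal ^ 2)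
    (V : Finset (HeightOneSpectrum (𝓞 K))) (hV : ∀ v, v ∈ V ↔ (q : 𝓞 K) ∈ v.asIdeal) :
    ∏ v ∈ V, Nat.card (𝓞 K ⧸ v.asIdeal) = q ^ Module.finrank ℚ K ∧ V.card ≤ Module.finrank ℚ K := by
  have h1 : ∏ v ∈ V, Nat.card (𝓞 K ⧸ v.asIdeal) = q ^ Module.finrank ℚ K := by
    rw [← nq_absNorm_span K q, nq_prod K hq hur V hV, map_prod]
    exact Finset.prod_congr rfl (fun v _ => (nq_absNorm_card K v).symm)
  refine ⟨h1, ?_⟩
  have h2 : q ^ V.card ∣ ∏ v ∈ V, Nat.card (𝓞 K ⧸ v.asIdeal) := by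
    rw [← Finset.prod_const]
    apply Finset.prod_dvd_prod_of_dvd
    intro v hv
    rw [← nq_absNorm_card K v]
    exact nq_absNorm_pow K hq v ((hV v).1 hv)
  rw [h1] at h2
  exact (Nat.pow_dvd_pow_iff_le_right hq.one_lt).1 h2

theorem unram : ∃ B : ℕ, ∀ q : ℕ, q.Prime → B < q →
    ∀ v : HeightOneSpectrum (𝓞 K), (q : 𝓞 K) ∈ v.asIdeal → (q : 𝓞 K) ∉ v.asIdeal ^ 2 := by
  refine ⟨(discr K).natAbs, ?_⟩
  intro q hq hB v hv hv2
  have hdvd : v.asIdeal ^ 2 ∣ (Ideal.span {(q : ℤ)}).map (algebraMap ℤ (𝓞 K)) := by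
    rw [Ideal.map_span, Set.image_singleton]
    simpa [Ideal.dvd_iff_le, Ideal.span_singleton_le_iff_mem] using hv2
  have hmax : (Ideal.span {(q : ℤ)}).IsMaximal := by
    have hp : Prime (q : ℤ) := Nat.prime_iff_prime_int.1 hq
    have := (Ideal.span_singleton_prime hp.ne_zero).2 hp
    exact this.isMaximal (by
      rw [Ne, Ideal.span_singleton_eq_bot]; exact hp.ne_zero)
  have hne : Ideal.span {(q : ℤ)} ≠ ⊥ := by
    rw [Ne, Ideal.span_singleton_eq_bot]
    exact_mod_cast hq.ne_zero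
  have h3 := pow_sub_one_dvd_differentIdeal ℤ (B := 𝓞 K) v.asIdeal 2 hne hdvd
  simp only [Nat.add_one_sub_one, pow_one] at h3
  have h4 : Ideal.absNorm v.asIdeal ∣ (discr K).natAbs := by
    rw [← absNorm_differentIdeal K (𝓞 K)]
    exact Ideal.absNorm_dvd_absNorm_of_le (Ideal.dvd_iff_le.1 h3)
  have h5 : q ∣ (discr K).natAbs := (nq_absNorm_pow K hq v hv).trans h4
  have h6 : (discr K).natAbs ≠ 0 := Int.natAbs_ne_zero.2 (discr_ne_zero K)
  exact absurd (Nat.le_of_dvd (Nat.pos_of_ne_zero h6) h5) (by omega)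

end Pool.Agent.SS.DD
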