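import Mathlib

/-!
# Module D4/Fib (M): pairs of integers of `K` with given residues

The set `Gset b q Good` of the coordinate vectors modulo `q` of the pairs `(A, B)` whose residues at the places `v ∈ V` are in `Good v` has at least `∏ (Good v).ncard` elements.

PROOF. The ideals `v.asIdeal`, `v ∈ V`, are pairwise coprime, so for each family `(r v)` with `r v ∈ Good v` there is a pair `(A, B)` with
`(A mod v, B mod v) = r v` for `v ∈ V` (`IsDedekindDomain.exists_forall_sub_mem_ideal` or `Ideal.exists_forall_sub_mem_ideal`/`Ideal.quotientInfRingEquivPiQuotient`).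
Send the family to the coordinate vector modulo `q` of a chosen pair: it is in the set, and the map is injective: if the coordinates of `(A, B)`, `(A', B')` are congruent modulo `q`,
then `A - A' ∈ q O`, `B - B' ∈ q O` (`b.sum_repr`), which is contained in every `v ∈ V`. The number of families is `∏ (Good v).ncard` (`Fintype.card_pi`, `Finset.card_pi`,
`Nat.card_pi`); the set of all `u : ι ⊕ ι → ZMod q` is finite (`q ≠ 0`), so `Set.ncard` is monotone.
-/

set_option autoImplicit false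

namespace Pool.Agent.SS.DD

open NumberField IsDedekindDomain

variable {K : Type} [Field K] [NumberField K]

/-- The residue vectors of the pairs with residues in `Good v` for `v ∈ V`. -/
def Gset {ι : Type} (b : Module.Basis ι ℤ (𝓞 K)) (q : ℕ) (V : Finset (HeightOneSpectrum (𝓞 K)))
    (Good : ∀ v : HeightOneSpectrum (𝓞 K), Set ((𝓞 K ⧸ v.asIdeal) × (𝓞 K ⧸ v.asIdeal))) :
    Set (ι ⊕ ι → ZMod q) :=
  {u | ∃ A B : 𝓞 K, (∀ i, ((b.repr A i : ℤ) : ZMod q) = u (Sum.inl i)) ∧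
    (∀ i, ((b.repr B i : ℤ) : ZMod q) = u (Sum.inr i)) ∧
    ∀ v ∈ V, (Ideal.Quotient.mk v.asIdeal A, Ideal.Quotient.mk v.asIdeal B) ∈ Good v}

private theorem fib_mem {ι : Type} [Fintype ι] (b : Module.Basis ι ℤ (𝓞 K)) {q : ℕ}
    {v : HeightOneSpectrum (𝓞 K)} (hv : (q : 𝓞 K) ∈ v.asIdeal) (A A' : 𝓞 K)
    (h : ∀ i, ((b.repr A i : ℤ) : ZMod q) = ((b.repr A' i : ℤ) : ZMod q)) :
    Ideal.Quotient.mk v.asIdeal A = Ideal.Quotient.mk v.asIdeal A' := by
  rw [Ideal.Quotient.mk_eq_mk_iff_sub_mem, ← b.sum_repr (A - A')]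
  refine v.asIdeal.sum_mem fun i _ => ?_
  have h1 : (q : ℤ) ∣ b.repr (A - A') i := by
    have h2 := (ZMod.intCast_eq_intCast_iff_dvd_sub _ _ _).1 (h i).symm
    rwa [map_sub, Finsupp.sub_apply]
  obtain ⟨c, hc⟩ := h1
  rw [hc, mul_smul, zsmul_eq_mul, Int.cast_natCast]
  exact v.asIdeal.mul_mem_right _ hv

private theorem fib_ex (V : Finset (HeightOneSpectrum (𝓞 K)))
    (r : ∀ v : V, 𝓞 K ⧸ v.1.asIdeal) :
    ∃ A : 𝓞 K, ∀ v : V, Ideal.Quotient.mk v.1.asIdeal A = r v := by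
  obtain ⟨y, hy⟩ := IsDedekindDomain.exists_forall_sub_mem_ideal (s := V)
    (fun v : HeightOneSpectrum (𝓞 K) => v.asIdeal) (fun _ => 1)
    (fun v _ => v.prime) (fun v _ w _ hvw h => hvw (HeightOneSpectrum.ext h))
    (fun v => (Ideal.Quotient.mk_surjective (r v)).choose)
  refine ⟨y, fun v => ?_⟩
  have h1 := hy v.1 v.2
  simp only [pow_one] at h1
  rw [← Ideal.Quotient.mk_eq_mk_iff_sub_mem] at h1
  rw [h1]
  exact (Ideal.Quotient.mk_surjective (r v)).choose_spec

theorem Gset_card {ι : Type} [Fintype ι] (b : Module.Basis ι ℤ (𝓞 K)) {q : ℕ} (hq : q.Prime)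
    (V : Finset (HeightOneSpectrum (𝓞 K))) (hV : ∀ v ∈ V, (q : 𝓞 K) ∈ v.asIdeal)
    (Good : ∀ v : HeightOneSpectrum (𝓞 K), Set ((𝓞 K ⧸ v.asIdeal) × (𝓞 K ⧸ v.asIdeal))) :
    ∏ v ∈ V, (Good v).ncard ≤ (Gset b q V Good).ncard := by
  classical
  have : NeZero q := ⟨hq.ne_zero⟩
  choose fA hA using fun r : (∀ v : V, Good v.1) => fib_ex V fun v => (r v).1.1
  choose fB hB using fun r : (∀ v : V, Good v.1) => fib_ex V fun v => (r v).1.2
  let Φ : (∀ v : V, Good v.1) → Gset b q V Good := fun r =>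
    ⟨Sum.elim (fun i => ((b.repr (fA r) i : ℤ) : ZMod q)) (fun i => ((b.repr (fB r) i : ℤ) : ZMod q)),
      fA r, fB r, fun i => rfl, fun i => rfl, fun v hv => by
        have h1 := hA r ⟨v, hv⟩
        have h2 := hB r ⟨v, hv⟩
        simp only at h1 h2
        rw [h1, h2]
        exact (r ⟨v, hv⟩).2⟩
  have hΦ : Function.Injective Φ := by
    intro r r' h
    have h0 : ∀ s, (Φ r).1 s = (Φ r').1 s := fun s => by rw [h]
    funext v
    apply Subtype.ext
    apply Prod.ext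
    · rw [← hA r v, ← hA r' v]
      exact fib_mem b (hV v.1 v.2) _ _ fun i => h0 (Sum.inl i)
    · rw [← hB r v, ← hB r' v]
      exact fib_mem b (hV v.1 v.2) _ _ fun i => h0 (Sum.inr i)
  have h1 := Nat.card_le_card_of_injective Φ hΦ
  rw [Nat.card_pi, Nat.card_coe_set_eq] at h1
  refine le_trans (le_of_eq ?_) h1
  rw [← Finset.prod_coe_sort V]
  exact Finset.prod_congr rfl fun v _ => (Nat.card_coe_set_eq _).symm

/-- Membership of the residue vector of a pair. -/
theorem Gset_mem {ι : Type} [Fintype ι] (b : Module.Basis ι ℤ (𝓞 K)) {q : ℕ} (hq : q.Prime)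
    (V : Finset (HeightOneSpectrum (𝓞 K))) (hV : ∀ v ∈ V, (q : 𝓞 K) ∈ v.asIdeal)
    (Good : ∀ v : HeightOneSpectrum (𝓞 K), Set ((𝓞 K ⧸ v.asIdeal) × (𝓞 K ⧸ v.asIdeal)))
    (z : ι ⊕ ι → ℤ) (hz : (fun i => (z i : ZMod q)) ∈ Gset b q V Good) :
    ∀ v ∈ V, (Ideal.Quotient.mk v.asIdeal (∑ i, z (Sum.inl i) • b i),
      Ideal.Quotient.mk v.asIdeal (∑ i, z (Sum.inr i) • b i)) ∈ Good v := by
  obtain ⟨A, B, hA, hB, h⟩ := hz
  intro v hv
  have h1 : Ideal.Quotient.mk v.asIdeal (∑ i, z (Sum.inl i) • b i) =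
      Ideal.Quotient.mk v.asIdeal A := by
    refine fib_mem b (hV v hv) _ _ fun i => ?_
    rw [b.repr_sum_self (fun i => z (Sum.inl i))]
    exact (hA i).symm
  have h2 : Ideal.Quotient.mk v.asIdeal (∑ i, z (Sum.inr i) • b i) =
      Ideal.Quotient.mk v.asIdeal B := by
    refine fib_mem b (hV v hv) _ _ fun i => ?_
    rw [b.repr_sum_self (fun i => z (Sum.inr i))]
    exact (hB i).symm
  rw [h1, h2]
  exact h v hv

end Pool.Agent.SS.DD
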