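import Mathlib
import Pool.Agent.Work.MP_a5099b_nt.Defs

/-!
# Module D4/Hz (M): at least half of the pairs are nonsingular and ordinary

`k` finite of characteristic `q ≥ 17`. The pairs `(a, b)` with `4 a³ + 27 b² ≠ 0` and Hasse coefficient nonzero are at least `card k ^ 2 / 2`.

PROOF. Put `m = (q - 1) / 2`. `Hasse q a b = ∑_{i + j + l = m, 3 i + j = 2 m} (m! / (i! j! l!)) a ^ j b ^ l`; here `j = 2 m - 3 i`, `l = 2 i - m`, so `m ≤ 2 i`, `3 i ≤ 2 m`, `j ≤ m / 2`.
For `b ≠ 0` this is a polynomial in `a` of degree `≤ m / 2`, not zero: its coefficient at `i = ⌈m / 2⌉`, is `m! / (i! j! l!) b ^ l`, nonzero as `m < q`. (Lean: `Polynomial.coeff` of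
`(X ^ 3 + C a * X + C b) ^ m`; e.g. `add_pow` twice, or work in `k[a][X]`: the polynomial `F_b(Y) = ((X ^ 3 + C Y * X + C b) ^ m).coeff (2 m) ∈ k[Y]` has `natDegree ≤ m / 2`, because
`(X ^ 3 + C b + C Y * X) ^ m = ∑_j choose m j (Y X) ^ j (X ^ 3 + b) ^ (m - j)` and `(X ^ 3 + b) ^ (m - j)` has degree `3 (m - j)`: its coefficient at `2 m - j` is zero if `3 (m - j) < 2 m - j`,
that is `m < 2 j`; so `Hasse q a b = ∑_{j ≤ m/2} choose m j * a ^ j * ((X ^ 3 + b) ^ (m - j)).coeff (2 m - j)`, and the coefficient of `(X ^ 3 + b) ^ (m - j)` at `2 m - j` is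
`choose (m - j) i b ^ (m - j - i)` if `2 m - j = 3 i`, zero otherwise.) So for every `b ≠ 0` at most `m / 2 ≤ (q - 1) / 4` values of `a` have Hasse coefficient zero, and for every `b` at
most `3` values of `a` have `4 a ^ 3 + 27 b ^ 2 = 0` (degree 3, `4 ≠ 0`). Bad pairs: at most `Q (the pairs with b = 0) + Q ((q - 1) / 4 + 3)`, `Q = card k`; `q ≤ Q` and `q ≥ 17` give
`≤ Q ^ 2 / 2`.
-/

set_option autoImplicit false

namespace Pool.Agent.SS.DD

open Polynomial

section aux

variable {k : Type} [Field k]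

/-- the coefficient of `Y ^ j`. -/
private noncomputable def cf (m : ℕ) (b : k) (j : ℕ) : k :=
  (Nat.choose m j : k) * (((X ^ 3 + C b : k[X]) ^ (m - j)).coeff (2 * m - j))

private theorem coeff_pow3 (b : k) (n i : ℕ) :
    ((X ^ 3 + C b : k[X]) ^ n).coeff i = if 3 ∣ i then b ^ (n - i / 3) * (n.choose (i / 3) : k) else 0 := by
  have h : (X ^ 3 + C b : k[X]) ^ n = Polynomial.expand k 3 ((X + C b) ^ n) := by
    simp
  rw [h, Polynomial.coeff_expand (by norm_num : 0 < 3), Polynomial.coeff_X_add_C_pow]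

private noncomputable def Fp (m : ℕ) (b : k) : k[X] :=
  ∑ j ∈ Finset.range (m + 1), C (cf m b j) * X ^ j

private theorem Fp_coeff (m : ℕ) (b : k) (j : ℕ) (hj : j ≤ m) : (Fp m b).coeff j = cf m b j := by
  unfold Fp
  rw [Polynomial.finsetSum_coeff]
  simp only [Polynomial.coeff_C_mul, Polynomial.coeff_X_pow]
  rw [Finset.sum_eq_single j]
  · simp
  · intro i _ hij
    rw [if_neg (Ne.symm hij)]
    simp
  · intro h
    exact absurd (Finset.mem_range.2 (by omega)) h

private theorem Fp_eval (m : ℕ) (a b : k) :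
    (Fp m b).eval a = ((X ^ 3 + C a * X + C b : k[X]) ^ m).coeff (2 * m) := by
  have h : (X ^ 3 + C a * X + C b : k[X]) ^ m = (C a * X + (X ^ 3 + C b)) ^ m := by
    congr 1
    ring
  rw [h, add_pow, Polynomial.finsetSum_coeff]
  unfold Fp
  rw [Polynomial.eval_finsetSum]
  apply Finset.sum_congr rfl
  intro j hj
  have hj' : j ≤ m := by
    have := Finset.mem_range.1 hj
    omega
  have h2 : (C a * X) ^ j * (X ^ 3 + C b) ^ (m - j) * ((m.choose j : ℕ) : k[X]) =
      C (a ^ j * (m.choose j : k)) * ((X ^ 3 + C b) ^ (m - j) * X ^ j) := by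
    simp only [mul_pow, C_mul, C_pow, map_natCast]
    ring
  rw [h2, Polynomial.coeff_C_mul]
  have h3 : ((X ^ 3 + C b : k[X]) ^ (m - j) * X ^ j).coeff (2 * m) =
      ((X ^ 3 + C b : k[X]) ^ (m - j)).coeff (2 * m - j) := by
    have := Polynomial.coeff_mul_X_pow ((X ^ 3 + C b : k[X]) ^ (m - j)) j (2 * m - j)
    rw [← this]
    congr 1
    omega
  rw [h3]
  simp only [eval_mul, eval_C, eval_pow, eval_X, cf]
  ring

private theorem cf_zero (m : ℕ) (b : k) (j : ℕ) (hj : j ≤ m) (h : m < 2 * j) : cf m b j = 0 := by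
  unfold cf
  rw [coeff_pow3]
  split_ifs with h3
  · rw [Nat.choose_eq_zero_of_lt (by omega : m - j < (2 * m - j) / 3)]
    simp
  · simp

private theorem Fp_deg (m : ℕ) (b : k) : (Fp m b).natDegree ≤ m / 2 := by
  rw [Polynomial.natDegree_le_iff_coeff_eq_zero]
  intro j hj
  by_cases hjm : j ≤ m
  · rw [Fp_coeff m b j hjm]
    exact cf_zero m b j hjm (by omega)
  · unfold Fp
    rw [Polynomial.finsetSum_coeff]
    apply Finset.sum_eq_zero
    intro i hi
    have := Finset.mem_range.1 hi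
    rw [Polynomial.coeff_C_mul, Polynomial.coeff_X_pow, if_neg (by omega)]
    simp

private theorem choose_ne {q : ℕ} (hq : q.Prime) [CharP k q] {n i : ℕ} (hn : n < q) (hi : i ≤ n) :
    (n.choose i : k) ≠ 0 := by
  intro h
  rw [CharP.cast_eq_zero_iff k q] at h
  have h1 : q ∣ n.factorial := by
    rw [← Nat.choose_mul_factorial_mul_factorial hi]
    exact Dvd.dvd.mul_right (Dvd.dvd.mul_right h _) _
  rw [hq.dvd_factorial] at h1
  omega

private theorem Fp_ne {q : ℕ} (hq : q.Prime) [CharP k q] (m : ℕ) (hm : m < q) (hm3 : 3 ≤ m) (b : k) (hb : b ≠ 0) :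
    Fp m b ≠ 0 := by
  intro h
  have key : ∀ j ≤ m, cf m b j = 0 := by
    intro j hj
    rw [← Fp_coeff m b j hj, h]
    simp
  obtain ⟨i, hi1, hi3, hi2⟩ : ∃ i, 3 * i ≤ 2 * m ∧ m ≤ 3 * i ∧ i ≤ m - (2 * m - 3 * i) :=
    ⟨(m + 1) / 2, by omega, by omega, by omega⟩
  have h1 := key (2 * m - 3 * i) (by omega)
  unfold cf at h1
  rw [coeff_pow3] at h1
  have e : 2 * m - (2 * m - 3 * i) = 3 * i := by omega
  rw [e, if_pos (Dvd.intro _ rfl), Nat.mul_div_cancel_left _ (by norm_num : 0 < 3)] at h1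
  have n1 : (Nat.choose m (2 * m - 3 * i) : k) ≠ 0 := choose_ne hq hm (by omega)
  have n2 : (Nat.choose (m - (2 * m - 3 * i)) i : k) ≠ 0 := choose_ne hq (by omega) hi2
  have n3 := pow_ne_zero (m - (2 * m - 3 * i) - i) hb
  exact (mul_ne_zero n1 (mul_ne_zero n3 n2)) h1

end aux

theorem ordinary_half {q : ℕ} (hq : q.Prime) (h17 : 17 ≤ q) (k : Type) [Field k] [Finite k] [CharP k q] :
    Nat.card k ^ 2 ≤ 2 * {P : k × k | 4 * P.1 ^ 3 + 27 * P.2 ^ 2 ≠ 0 ∧ Hasse q P.1 P.2 ≠ 0}.ncard := by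
  classical
  have : Fintype k := Fintype.ofFinite k
  have hodd : q % 2 = 1 := by
    rcases hq.eq_two_or_odd with h | h
    · omega
    · exact h
  obtain ⟨m, hm⟩ : ∃ m, q = 2 * m + 1 := ⟨q / 2, by omega⟩
  have hQ : q ≤ Fintype.card k := by
    have h1 : q ∣ Fintype.card k := by
      rw [← CharP.cast_eq_zero_iff k q]
      exact Nat.cast_card_eq_zero k
    exact Nat.le_of_dvd Fintype.card_pos h1
  have h4 : (4 : k) ≠ 0 := by
    intro h
    have : ((4 : ℕ) : k) = 0 := by exact_mod_cast h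
    rw [CharP.cast_eq_zero_iff k q] at this
    have := Nat.le_of_dvd (by norm_num) this
    omega
  have hH : ∀ a b : k, Hasse q a b = (Fp m b).eval a := by
    intro a b
    rw [Fp_eval]
    unfold Hasse
    have e1 : (q - 1) / 2 = m := by omega
    have e2 : q - 1 = 2 * m := by omega
    rw [e1, e2]
  -- the fibre count
  have fib : ∀ b : k, b ≠ 0 → Fintype.card k ≤
      (Finset.univ.filter fun a : k => 4 * a ^ 3 + 27 * b ^ 2 ≠ 0 ∧ Hasse q a b ≠ 0).card + (3 + m / 2) := by
    intro b hb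
    set p1 : k[X] := C 4 * X ^ 3 + C (27 * b ^ 2) with hp1
    have hp1d : p1.natDegree = 3 := by
      rw [hp1]
      compute_degree!
    have hp1n : p1 ≠ 0 := by
      intro h
      rw [h] at hp1d
      simp at hp1d
    set p2 := Fp m b with hp2
    have hp2n : p2 ≠ 0 := Fp_ne hq m (by omega) (by omega) b hb
    have sub : (Finset.univ : Finset k) ⊆
        (Finset.univ.filter fun a : k => 4 * a ^ 3 + 27 * b ^ 2 ≠ 0 ∧ Hasse q a b ≠ 0) ∪
          (p1.roots.toFinset ∪ p2.roots.toFinset) := by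
      intro a _
      by_cases h1 : 4 * a ^ 3 + 27 * b ^ 2 = 0
      · apply Finset.mem_union_right
        apply Finset.mem_union_left
        rw [Multiset.mem_toFinset, Polynomial.mem_roots hp1n]
        simp [hp1, IsRoot, h1]
      · by_cases h2 : Hasse q a b = 0
        · apply Finset.mem_union_right
          apply Finset.mem_union_right
          rw [Multiset.mem_toFinset, Polynomial.mem_roots hp2n]
          rw [IsRoot, ← hH, h2]
        · apply Finset.mem_union_left
          simp [h1, h2]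
    have c1 : p1.roots.toFinset.card ≤ 3 := by
      calc _ ≤ Multiset.card p1.roots := Multiset.toFinset_card_le _
        _ ≤ p1.natDegree := Polynomial.card_roots' _
        _ = 3 := hp1d
    have c2 : p2.roots.toFinset.card ≤ m / 2 := by
      calc _ ≤ Multiset.card p2.roots := Multiset.toFinset_card_le _
        _ ≤ p2.natDegree := Polynomial.card_roots' _
        _ ≤ m / 2 := Fp_deg m b
    calc Fintype.card k = (Finset.univ : Finset k).card := rfl
      _ ≤ _ := Finset.card_le_card sub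
      _ ≤ _ := Finset.card_union_le _ _
      _ ≤ _ := by
        have := Finset.card_union_le p1.roots.toFinset p2.roots.toFinset
        omega
  set Gd : Finset (k × k) := Finset.univ.filter fun P : k × k =>
    4 * P.1 ^ 3 + 27 * P.2 ^ 2 ≠ 0 ∧ Hasse q P.1 P.2 ≠ 0 with hGd
  have e0 : {P : k × k | 4 * P.1 ^ 3 + 27 * P.2 ^ 2 ≠ 0 ∧ Hasse q P.1 P.2 ≠ 0}.ncard = Gd.card := by
    rw [← Set.ncard_coe_finset]
    congr 1
    ext P
    simp [hGd]
  rw [e0, Nat.card_eq_fintype_card]
  have e1 : Gd.card = ∑ b : k, (Gd.filter fun P => P.2 = b).card :=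
    Finset.card_eq_sum_card_fiberwise (fun P _ => Finset.mem_univ _)
  have e2 : ∀ b : k, (Gd.filter fun P => P.2 = b).card =
      (Finset.univ.filter fun a : k => 4 * a ^ 3 + 27 * b ^ 2 ≠ 0 ∧ Hasse q a b ≠ 0).card := by
    intro b
    symm
    apply Finset.card_bij (fun a _ => (a, b))
    · intro a ha
      simp only [Finset.mem_filter, Finset.mem_univ, true_and, hGd, ne_eq] at ha ⊢
      exact ⟨ha, trivial⟩
    · intro a _ a' _ h
      exact (Prod.mk.inj h).1
    · rintro ⟨a, b'⟩ h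
      simp only [Finset.mem_filter, Finset.mem_univ, true_and, hGd, ne_eq] at h ⊢
      obtain ⟨h, rfl⟩ := h
      exact ⟨a, h, rfl⟩
  set Q := Fintype.card k with hQd
  set M := m / 2 with hM
  have hMQ : 4 * M + 1 ≤ Q := by omega
  have e3 : (Q - 1) * (Q - 3 - M) ≤ Gd.card := by
    rw [e1]
    calc (Q - 1) * (Q - 3 - M) = ∑ b ∈ Finset.univ.erase (0 : k), (Q - 3 - M) := by
          rw [Finset.sum_const, Finset.card_erase_of_mem (Finset.mem_univ _), Finset.card_univ, smul_eq_mul]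
      _ ≤ ∑ b ∈ Finset.univ.erase (0 : k), (Gd.filter fun P => P.2 = b).card := by
          apply Finset.sum_le_sum
          intro b hb
          rw [e2]
          have := fib b (Finset.ne_of_mem_erase hb)
          omega
      _ ≤ _ := Finset.sum_le_sum_of_subset (Finset.erase_subset _ _)
  have hQ17 : 17 ≤ Q := le_trans h17 hQ
  obtain ⟨R, hR⟩ : ∃ R, Q = 4 * M + 1 + R := ⟨Q - (4 * M + 1), by omega⟩
  have e4 : Q ^ 2 ≤ 2 * ((Q - 1) * (Q - 3 - M)) := by
    obtain ⟨S, hS⟩ : ∃ S, Q = S + 17 := ⟨Q - 17, by omega⟩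
    have f1 : Q - 1 = S + 16 := by omega
    obtain ⟨U, hU⟩ : ∃ U, U = Q - 3 - M := ⟨_, rfl⟩
    have f2 : 3 * S + 40 ≤ 4 * U := by omega
    rw [← hU, f1, hS]
    nlinarith [Nat.mul_le_mul_left (S + 16) f2]
  omega

end Pool.Agent.SS.DD
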