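import Mathlib
import Pool.Agent.Work.MP_a5099b_nt.Defs
import Pool.Agent.Work.MP_a5099b_nt.SpecC
import Pool.Agent.Work.MP_a5099b_nt.J.Stmt

/-!
# Module D4/SigD (M): the places above `q` for a pair with good residues

`W = ⟨0, 0, 0, A, B⟩`: `c₄ = -48 A`, `Δ = -16 (4 A³ + 27 B²)`. `k_v = O/v` (field: `Ideal.Quotient.field`, see `J/Ordn.lean` for the characteristic and the bridge to `card_iff`).

PROOF. At `v1`: `k = O/v1` has `q` elements; `Δ ∉ v1`; `W' = W mod v1` is a curve over `k` with `Δ' ≠ 0`, `α = c₄³`, `β = Δ`; its invariant is `(y : k)`, which is supersingular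
(`SSj_map` for `ZMod q → k`), so `card_iff` gives `Nat.card points ≡ 1 [MOD q]`: `PSS q W v1`, and `f = 1` is odd. So `v1 ∈ Sig q W`. If `v ∈ Sig q W`, `v ≠ v1`: `PSS` gives `W'`, `α`, `β` with
`c₄³ / Δ = α / β mod v = j(W')`, supersingular by `card_iff`; but `j(W') = c₄³/Δ mod v = 1728 * 4 a ^ 3 / (4 a ^ 3 + 27 b ^ 2)` and by `SSj_all` (`C.EHas`: all pairs with the same supersingular invariant have
Hasse coefficient zero) `Hasse q a b = 0`, a contradiction. `JMod W v1 n`: `α - n β ∈ v1` with `c₄³ = (α/β) Δ` means `n = y` in `k`, so in `ZMod q` (`ZMod q → k` is injective).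
-/

set_option autoImplicit false

namespace Pool.Agent.SS.DD

open NumberField IsDedekindDomain

variable {K : Type} [Field K] [NumberField K]

/-- the curve `y ^ 2 = x ^ 3 + A x + B` -/
def cur (A B : 𝓞 K) : WeierstrassCurve (𝓞 K) := ⟨0, 0, 0, A, B⟩

omit [NumberField K] in
private theorem charP_quot (v : HeightOneSpectrum (𝓞 K)) {p : ℕ} (hp : p.Prime)
    (hpv : (p : 𝓞 K) ∈ v.asIdeal) : CharP (𝓞 K ⧸ v.asIdeal) p := by
  have : Nontrivial (𝓞 K ⧸ v.asIdeal) := Ideal.Quotient.nontrivial_iff.mpr v.isPrime.ne_top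
  have h0 : ((p : ℕ) : 𝓞 K ⧸ v.asIdeal) = 0 := by
    rw [← map_natCast (Ideal.Quotient.mk v.asIdeal)]
    exact Ideal.Quotient.eq_zero_iff_mem.mpr hpv
  exact (CharP.charP_iff_prime_eq_zero hp).mpr h0

private theorem ne16 {k : Type*} [Field k] {q : ℕ} (h5 : 5 ≤ q) [CharP k q] : (16 : k) ≠ 0 := by
  have h2 : (2 : k) ≠ 0 := by
    intro h0
    have h3 : ((2 : ℕ) : k) = 0 := by exact_mod_cast h0
    rw [CharP.cast_eq_zero_iff k q 2] at h3
    have := Nat.le_of_dvd (by norm_num) h3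
    omega
  have : (16 : k) = 2 ^ 4 := by norm_num
  rw [this]
  exact pow_ne_zero 4 h2

private theorem short_Δ {k : Type*} [CommRing k] (a b : k) :
    (⟨0, 0, 0, a, b⟩ : WeierstrassCurve k).Δ = -16 * (4 * a ^ 3 + 27 * b ^ 2) := by
  simp only [WeierstrassCurve.Δ, WeierstrassCurve.b₂, WeierstrassCurve.b₄,
    WeierstrassCurve.b₆, WeierstrassCurve.b₈]
  ring

private theorem short_c₄ {k : Type*} [CommRing k] (a b : k) :
    (⟨0, 0, 0, a, b⟩ : WeierstrassCurve k).c₄ = -48 * a := by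
  simp only [WeierstrassCurve.c₄, WeierstrassCurve.b₂, WeierstrassCurve.b₄]
  ring

private theorem map_cur {k : Type*} [CommRing k] (f : 𝓞 K →+* k) (A B : 𝓞 K) :
    (cur A B).map f = ⟨0, 0, 0, f A, f B⟩ := by
  simp [cur, WeierstrassCurve.map]

theorem sig_eq {q : ℕ} [Fact q.Prime] (h5 : 5 ≤ q) (A B : 𝓞 K) (v1 : HeightOneSpectrum (𝓞 K))
    (hq1 : (q : 𝓞 K) ∈ v1.asIdeal) (hc1 : Nat.card (𝓞 K ⧸ v1.asIdeal) = q) (y : ℤ)
    (hss : SSj q (y : ZMod q))
    (hd1 : 4 * (Ideal.Quotient.mk v1.asIdeal A) ^ 3 + 27 * (Ideal.Quotient.mk v1.asIdeal B) ^ 2 ≠ 0)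
    (hj1 : 1728 * (4 * (Ideal.Quotient.mk v1.asIdeal A) ^ 3) =
      (y : 𝓞 K ⧸ v1.asIdeal) *
        (4 * (Ideal.Quotient.mk v1.asIdeal A) ^ 3 + 27 * (Ideal.Quotient.mk v1.asIdeal B) ^ 2))
    (hoth : ∀ v : HeightOneSpectrum (𝓞 K), (q : 𝓞 K) ∈ v.asIdeal → v ≠ v1 →
      4 * (Ideal.Quotient.mk v.asIdeal A) ^ 3 + 27 * (Ideal.Quotient.mk v.asIdeal B) ^ 2 ≠ 0 ∧
        Hasse q (Ideal.Quotient.mk v.asIdeal A) (Ideal.Quotient.mk v.asIdeal B) ≠ 0) :
    (cur A B).Δ ≠ 0 ∧ Sig q (cur A B) = {v1} ∧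
      ∀ n : ℤ, JMod (cur A B) v1 n → (n : ZMod q) = (y : ZMod q) := by
  classical
  have hq : q.Prime := Fact.out
  let _ : Field (𝓞 K ⧸ v1.asIdeal) := Ideal.Quotient.field v1.asIdeal
  have hch1 : CharP (𝓞 K ⧸ v1.asIdeal) q := charP_quot v1 hq hq1
  have hfin1 : Finite (𝓞 K ⧸ v1.asIdeal) := Ideal.finiteQuotientOfFreeOfNeBot v1.asIdeal v1.ne_bot
  let _ : Fintype (𝓞 K ⧸ v1.asIdeal) := Fintype.ofFinite _
  set m1 := Ideal.Quotient.mk v1.asIdeal with hm1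
  have hΔm : ((cur A B).map m1).Δ ≠ 0 := by
    rw [map_cur, short_Δ]
    exact mul_ne_zero (neg_ne_zero.mpr (ne16 h5)) hd1
  have hcm : ((cur A B).map m1).c₄ ^ 3 = (y : 𝓞 K ⧸ v1.asIdeal) * ((cur A B).map m1).Δ := by
    rw [map_cur, short_Δ, short_c₄]
    linear_combination (-16) * hj1
  have hΔ1 : (cur A B).Δ ∉ v1.asIdeal := by
    intro h
    apply hΔm
    rw [WeierstrassCurve.map_Δ]
    exact Ideal.Quotient.eq_zero_iff_mem.mpr h
  refine ⟨?_, ?_, ?_⟩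
  · intro h
    apply hΔ1
    rw [h]
    exact v1.asIdeal.zero_mem
  · ext v
    simp only [Set.mem_singleton_iff]
    constructor
    · rintro ⟨hqv, -, W', hW', ⟨α, β, hβ, hj, hj'⟩, hcard⟩
      by_contra hne
      obtain ⟨hab, hH⟩ := hoth v hqv hne
      let _ : Field (𝓞 K ⧸ v.asIdeal) := Ideal.Quotient.field v.asIdeal
      have hch : CharP (𝓞 K ⧸ v.asIdeal) q := charP_quot v hq hqv
      have hfin : Finite (𝓞 K ⧸ v.asIdeal) :=
        Ideal.finiteQuotientOfFreeOfNeBot v.asIdeal v.ne_bot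
      let _ : Fintype (𝓞 K ⧸ v.asIdeal) := Fintype.ofFinite _
      have hβ0 : Ideal.Quotient.mk v.asIdeal β ≠ 0 := fun h0 =>
        hβ (Ideal.Quotient.eq_zero_iff_mem.mp h0)
      have h1 := (card_iff hq h5 W' hW').mp hcard
      have h2 : W'.c₄ ^ 3 / W'.Δ = Ideal.Quotient.mk v.asIdeal α / Ideal.Quotient.mk v.asIdeal β := by
        rw [div_eq_div_iff hW' hβ0, mul_comm]
        exact hj'
      rw [h2] at h1
      refine hH (SSj_all hq h5 h1 hab ?_)
      have h3 := congrArg (Ideal.Quotient.mk v.asIdeal) hj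
      rw [map_mul, map_mul, map_pow, ← WeierstrassCurve.map_c₄, ← WeierstrassCurve.map_Δ, map_cur,
        short_Δ, short_c₄] at h3
      have h16 : (16 : 𝓞 K ⧸ v.asIdeal) ≠ 0 := ne16 h5
      have h4 : Ideal.Quotient.mk v.asIdeal β * (1728 * (4 * Ideal.Quotient.mk v.asIdeal A ^ 3)) =
          Ideal.Quotient.mk v.asIdeal α *
            (4 * Ideal.Quotient.mk v.asIdeal A ^ 3 + 27 * Ideal.Quotient.mk v.asIdeal B ^ 2) := by
        apply mul_left_cancel₀ (neg_ne_zero.mpr h16)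
        linear_combination h3
      rw [div_mul_eq_mul_div, eq_div_iff hβ0]
      linear_combination h4
    · intro h
      subst h
      refine ⟨hq1, ⟨1, odd_one, by rw [hc1, pow_one]⟩, (cur A B).map m1, hΔm,
        ⟨(cur A B).c₄ ^ 3, (cur A B).Δ, hΔ1, by ring, ?_⟩, ?_⟩
      · rw [WeierstrassCurve.map_c₄, WeierstrassCurve.map_Δ, map_pow]
        ring
      · rw [card_iff hq h5 _ hΔm]
        have h1 : ((cur A B).map m1).c₄ ^ 3 / ((cur A B).map m1).Δ = (y : 𝓞 K ⧸ v.asIdeal) := by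
          rw [hcm, mul_div_assoc, div_self hΔm, mul_one]
        rw [h1]
        have h2 : (y : 𝓞 K ⧸ v.asIdeal) = ZMod.castHom (dvd_refl q) (𝓞 K ⧸ v.asIdeal) (y : ZMod q) := by
          simp
        rw [h2, SSj_map hq h5]
        exact hss
  · rintro n ⟨α, β, hβ, hj, hn⟩
    have hβ0 : m1 β ≠ 0 := fun h0 => hβ (Ideal.Quotient.eq_zero_iff_mem.mp h0)
    have h1 : m1 α = (n : 𝓞 K ⧸ v1.asIdeal) * m1 β := by
      have := Ideal.Quotient.eq_zero_iff_mem.mpr hn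
      rw [map_sub, map_mul, map_intCast, sub_eq_zero] at this
      exact this
    have h2 := congrArg m1 hj
    rw [map_mul, map_mul, map_pow, ← WeierstrassCurve.map_c₄, ← WeierstrassCurve.map_Δ, hcm, h1] at h2
    have h3 : (n : 𝓞 K ⧸ v1.asIdeal) = (y : 𝓞 K ⧸ v1.asIdeal) := by
      apply mul_right_cancel₀ hΔm
      apply mul_left_cancel₀ hβ0
      linear_combination -h2
    rw [CharP.intCast_eq_intCast (𝓞 K ⧸ v1.asIdeal) q] at h3
    exact (ZMod.intCast_eq_intCast_iff n y q).mpr h3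

end Pool.Agent.SS.DD
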