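import Mathlib
import Pool.Agent.Work.MP_a5099b_nt.Defs
import Pool.Agent.Work.MP_a5099b_nt.C.EHas

/-!
# Module D4/Tw (S): the pairs with given invariant

PROOF. `exists_ab` (`C.EHas`, public) gives one pair `(a, b)` with `4 a³ + 27 b² ≠ 0` and invariant `y`; `a ≠ 0` as `y ≠ 0` (if `a = 0` then `y (4 a ^ 3 + 27 b ^ 2) = 0`), `b ≠ 0` as `y ≠ 1728` (if `b = 0`
then `1728 (4 a³) = y (4 a³)`, `4 a³ ≠ 0`). The pairs
`(a t ^ 2, b t ^ 3)`, `t ≠ 0`, have the same invariant and nonzero discriminant `t ^ 6 (4 a³ + 27 b²)`, and are different (`t = t ^ 3 / t ^ 2`). So at least `card k - 1` pairs.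
-/

set_option autoImplicit false

namespace Pool.Agent.SS.DD

theorem inv_pairs {q : ℕ} (hq : q.Prime) (h5 : 5 ≤ q) (k : Type) [Field k] [Finite k] [CharP k q] (y : k)
    (h0 : y ≠ 0) (h1 : y ≠ 1728) :
    Nat.card k ≤ {P : k × k | 4 * P.1 ^ 3 + 27 * P.2 ^ 2 ≠ 0 ∧
      1728 * (4 * P.1 ^ 3) = y * (4 * P.1 ^ 3 + 27 * P.2 ^ 2)}.ncard + 1 := by
  classical
  obtain ⟨a, b, hd, hy⟩ := exists_ab hq h5 y
  have ha : a ≠ 0 := by
    rintro rfl
    apply h0
    have h2 : y * (4 * (0 : k) ^ 3 + 27 * b ^ 2) = 0 := by rw [← hy]; ring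
    exact (mul_eq_zero.1 h2).resolve_right hd
  have hb : b ≠ 0 := by
    rintro rfl
    apply h1
    have h2 : (1728 - y) * (4 * a ^ 3 + 27 * (0 : k) ^ 2) = 0 := by linear_combination hy
    exact (sub_eq_zero.1 ((mul_eq_zero.1 h2).resolve_right hd)).symm
  set S : Set (k × k) := {P : k × k | 4 * P.1 ^ 3 + 27 * P.2 ^ 2 ≠ 0 ∧
      1728 * (4 * P.1 ^ 3) = y * (4 * P.1 ^ 3 + 27 * P.2 ^ 2)} with hS
  have hfin : S.Finite := Set.toFinite _
  let f : kˣ → S := fun t => ⟨(a * (t : k) ^ 2, b * (t : k) ^ 3), by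
    constructor
    · have e : 4 * (a * (t : k) ^ 2) ^ 3 + 27 * (b * (t : k) ^ 3) ^ 2 =
          (t : k) ^ 6 * (4 * a ^ 3 + 27 * b ^ 2) := by ring
      show 4 * (a * (t : k) ^ 2) ^ 3 + 27 * (b * (t : k) ^ 3) ^ 2 ≠ 0
      rw [e]
      exact mul_ne_zero (pow_ne_zero _ t.ne_zero) hd
    · show 1728 * (4 * (a * (t : k) ^ 2) ^ 3) =
        y * (4 * (a * (t : k) ^ 2) ^ 3 + 27 * (b * (t : k) ^ 3) ^ 2)
      linear_combination (t : k) ^ 6 * hy⟩
  have hf : Function.Injective f := by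
    intro t u htu
    have h2 : (a * (t : k) ^ 2, b * (t : k) ^ 3) = (a * (u : k) ^ 2, b * (u : k) ^ 3) :=
      congrArg Subtype.val htu
    rw [Prod.mk.injEq] at h2
    have h3 := mul_left_cancel₀ ha h2.1
    have h4 := mul_left_cancel₀ hb h2.2
    have h5' : (t : k) * (u : k) ^ 2 = (u : k) * (u : k) ^ 2 := by
      calc (t : k) * (u : k) ^ 2 = (t : k) * (t : k) ^ 2 := by rw [h3]
        _ = (t : k) ^ 3 := by ring
        _ = (u : k) ^ 3 := h4
        _ = (u : k) * (u : k) ^ 2 := by ring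
    exact Units.ext (mul_right_cancel₀ (pow_ne_zero _ u.ne_zero) h5')
  have h2 : Nat.card kˣ ≤ Nat.card S := Nat.card_le_card_of_injective f hf
  have h3 : Nat.card kˣ + 1 = Nat.card k := by
    have := Fintype.ofFinite k
    rw [Nat.card_eq_fintype_card, Nat.card_eq_fintype_card, Fintype.card_units]
    have := Fintype.card_pos (α := k)
    omega
  have h4 : Nat.card S = S.ncard := rfl
  omega

end Pool.Agent.SS.DD
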