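import Mathlib
import Pool.Agent.Work.MP_a5099b_nt.D4.NormQ
import Pool.Agent.Work.MP_a5099b_nt.D4.Fib
import Pool.Agent.Work.MP_a5099b_nt.D4.Hz
import Pool.Agent.Work.MP_a5099b_nt.D4.Tw
import Pool.Agent.Work.MP_a5099b_nt.D4.SigD

/-!
# Module D4/LocG (M): a set of residues modulo `q` of proportion at least `c / q` on which the criterion applies

PROOF. `V` = the finite set of the `v` above `q` (`above_finite`). `Good v1` = the pairs of `inv_pairs` for the residue `y` of `y0` in `O/v1` (nonzero, `≠ 1728`: `ZMod q → O/v1` is injective);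
`Good v` = the pairs of `ordinary_half` for `v ≠ v1` (`Ideal.Quotient.field`; characteristic `q`, see `charP_quot` in `J/Res.lean`). `G = Gset b q V Good`. `Gset_card`:
`ncard ≥ ∏ (Good v).ncard`; with `N_v = Nat.card (O/v)`: `2 (Good v).ncard ≥ N_v ^ 2` for `v ≠ v1`, `(Good v1).ncard ≥ q - 1 ≥ q / 2 = N_{v1} ^ 2 / (2 q)`. So
`2 ^ n * q * ncard ≥ 2 ^ V.card * q * ∏ ≥ (∏ N_v) ^ 2 = q ^ (2 n)` (`prod_card`), `Fintype.card (ι ⊕ ι) = 2 n` (`Module.finrank_eq_card_basis`, `RingOfIntegers.rank`). Second part: `Gset_mem`, `sig_eq`.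
-/

set_option autoImplicit false

namespace Pool.Agent.SS.DD

open NumberField IsDedekindDomain

variable {K : Type} [Field K] [NumberField K]

private theorem finQ (v : HeightOneSpectrum (𝓞 K)) : Finite (𝓞 K ⧸ v.asIdeal) :=
  Ideal.finiteQuotientOfFreeOfNeBot v.asIdeal v.ne_bot

omit [NumberField K] in
private theorem charP_quot' {q : ℕ} (hq' : q.Prime) (v : HeightOneSpectrum (𝓞 K))
    (hq : (q : 𝓞 K) ∈ v.asIdeal) : CharP (𝓞 K ⧸ v.asIdeal) q := by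
  have hnt : Nontrivial (𝓞 K ⧸ v.asIdeal) := Ideal.Quotient.nontrivial_iff.2 v.isPrime.ne_top
  have h0 : ((q : ℕ) : 𝓞 K ⧸ v.asIdeal) = 0 := by
    have := Ideal.Quotient.eq_zero_iff_mem.2 hq
    rwa [map_natCast] at this
  obtain ⟨p, hp⟩ := CharP.exists (𝓞 K ⧸ v.asIdeal)
  have hdvd := (CharP.cast_eq_zero_iff (𝓞 K ⧸ v.asIdeal) p q).1 h0
  rcases (Nat.dvd_prime hq').1 hdvd with h | h
  · exfalso
    rw [h] at hp
    have := (CharP.cast_eq_zero_iff (𝓞 K ⧸ v.asIdeal) 1 1).2 dvd_rfl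
    rw [Nat.cast_one] at this
    exact one_ne_zero this
  · rwa [h] at hp

private theorem good_ord {q : ℕ} (hq : q.Prime) (h17 : 17 ≤ q) (v : HeightOneSpectrum (𝓞 K))
    (hv : (q : 𝓞 K) ∈ v.asIdeal) :
    Nat.card (𝓞 K ⧸ v.asIdeal) ^ 2 ≤ 2 * {P : (𝓞 K ⧸ v.asIdeal) × (𝓞 K ⧸ v.asIdeal) |
      4 * P.1 ^ 3 + 27 * P.2 ^ 2 ≠ 0 ∧ Hasse q P.1 P.2 ≠ 0}.ncard := by
  let _ : Field (𝓞 K ⧸ v.asIdeal) := Ideal.Quotient.field v.asIdeal
  have : CharP (𝓞 K ⧸ v.asIdeal) q := charP_quot' hq v hv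
  have : Finite (𝓞 K ⧸ v.asIdeal) := finQ v
  exact ordinary_half hq h17 (𝓞 K ⧸ v.asIdeal)

omit [NumberField K] in
private theorem cast_inj {q : ℕ} (hq : q.Prime) (v : HeightOneSpectrum (𝓞 K))
    (hv : (q : 𝓞 K) ∈ v.asIdeal) (y z : ℤ) (h : (y : 𝓞 K ⧸ v.asIdeal) = (z : 𝓞 K ⧸ v.asIdeal)) :
    (y : ZMod q) = (z : ZMod q) := by
  have : CharP (𝓞 K ⧸ v.asIdeal) q := charP_quot' hq v hv
  rw [← sub_eq_zero, ← Int.cast_sub] at h ⊢
  rw [CharP.intCast_eq_zero_iff _ q] at h ⊢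
  exact h

private theorem good_inv {q : ℕ} (hq : q.Prime) (h5 : 5 ≤ q) (v : HeightOneSpectrum (𝓞 K))
    (hv : (q : 𝓞 K) ∈ v.asIdeal) (y : ℤ) (h0 : (y : ZMod q) ≠ 0) (h1 : (y : ZMod q) ≠ 1728) :
    Nat.card (𝓞 K ⧸ v.asIdeal) ≤ {P : (𝓞 K ⧸ v.asIdeal) × (𝓞 K ⧸ v.asIdeal) |
      4 * P.1 ^ 3 + 27 * P.2 ^ 2 ≠ 0 ∧
        1728 * (4 * P.1 ^ 3) = (y : 𝓞 K ⧸ v.asIdeal) * (4 * P.1 ^ 3 + 27 * P.2 ^ 2)}.ncard + 1 := by
  let _ : Field (𝓞 K ⧸ v.asIdeal) := Ideal.Quotient.field v.asIdeal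
  have : CharP (𝓞 K ⧸ v.asIdeal) q := charP_quot' hq v hv
  have : Finite (𝓞 K ⧸ v.asIdeal) := finQ v
  refine inv_pairs hq h5 (𝓞 K ⧸ v.asIdeal) (y : 𝓞 K ⧸ v.asIdeal) ?_ ?_
  · intro h
    apply h0
    have := cast_inj hq v hv y 0 (by simpa using h)
    simpa using this
  · intro h
    apply h1
    have := cast_inj hq v hv y 1728 (by simpa using h)
    simpa using this

theorem exists_G {ι : Type} [Fintype ι] (b : Module.Basis ι ℤ (𝓞 K)) {q : ℕ} [Fact q.Prime] (h17 : 17 ≤ q)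
    (hur : ∀ v : HeightOneSpectrum (𝓞 K), (q : 𝓞 K) ∈ v.asIdeal → (q : 𝓞 K) ∉ v.asIdeal ^ 2)
    (v1 : HeightOneSpectrum (𝓞 K)) (hq1 : (q : 𝓞 K) ∈ v1.asIdeal)
    (hc1 : Nat.card (𝓞 K ⧸ v1.asIdeal) = q) (y : ℤ) (hss : SSj q (y : ZMod q))
    (h0 : (y : ZMod q) ≠ 0) (h1 : (y : ZMod q) ≠ 1728) :
    ∃ G : Set (ι ⊕ ι → ZMod q),
      (1 / 2 ^ Module.finrank ℚ K : ℝ) / q * (q : ℝ) ^ Fintype.card (ι ⊕ ι) ≤ (G.ncard : ℝ) ∧
      ∀ z : ι ⊕ ι → ℤ, (fun i => (z i : ZMod q)) ∈ G →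
        (cur (∑ i, z (Sum.inl i) • b i) (∑ i, z (Sum.inr i) • b i)).Δ ≠ 0 ∧
        Sig q (cur (∑ i, z (Sum.inl i) • b i) (∑ i, z (Sum.inr i) • b i)) = {v1} ∧
        ∀ n : ℤ, JMod (cur (∑ i, z (Sum.inl i) • b i) (∑ i, z (Sum.inr i) • b i)) v1 n →
          (n : ZMod q) = (y : ZMod q) := by
  classical
  have hq : q.Prime := Fact.out
  set V : Finset (HeightOneSpectrum (𝓞 K)) := (above_finite (K := K) hq).toFinset with hVdef
  have hV : ∀ v, v ∈ V ↔ (q : 𝓞 K) ∈ v.asIdeal := by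
    intro v
    simp [hVdef]
  obtain ⟨hprod, hcardV⟩ := prod_card (K := K) hq hur V hV
  let Good : ∀ v : HeightOneSpectrum (𝓞 K), Set ((𝓞 K ⧸ v.asIdeal) × (𝓞 K ⧸ v.asIdeal)) := fun v =>
    {P | 4 * P.1 ^ 3 + 27 * P.2 ^ 2 ≠ 0 ∧
      (v = v1 → 1728 * (4 * P.1 ^ 3) = (y : 𝓞 K ⧸ v.asIdeal) * (4 * P.1 ^ 3 + 27 * P.2 ^ 2)) ∧
      (v ≠ v1 → Hasse q P.1 P.2 ≠ 0)}
  have hG1 : Good v1 = {P : (𝓞 K ⧸ v1.asIdeal) × (𝓞 K ⧸ v1.asIdeal) |
      4 * P.1 ^ 3 + 27 * P.2 ^ 2 ≠ 0 ∧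
        1728 * (4 * P.1 ^ 3) = (y : 𝓞 K ⧸ v1.asIdeal) * (4 * P.1 ^ 3 + 27 * P.2 ^ 2)} := by
    ext P
    constructor
    · intro h
      exact ⟨h.1, h.2.1 rfl⟩
    · intro h
      exact ⟨h.1, fun _ => h.2, fun h' => absurd rfl h'⟩
  have hG2 : ∀ v, v ≠ v1 → Good v = {P : (𝓞 K ⧸ v.asIdeal) × (𝓞 K ⧸ v.asIdeal) |
      4 * P.1 ^ 3 + 27 * P.2 ^ 2 ≠ 0 ∧ Hasse q P.1 P.2 ≠ 0} := by
    intro v hv
    ext P
    constructor
    · intro h
      exact ⟨h.1, h.2.2 hv⟩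
    · intro h
      exact ⟨h.1, fun h' => absurd h' hv, fun _ => h.2⟩
  refine ⟨Gset b q V Good, ?_, ?_⟩
  · have hle := Gset_card b hq V (fun v hv => (hV v).1 hv) Good
    have hv1V : v1 ∈ V := (hV v1).2 hq1
    have hqpos : (0 : ℝ) < q := by exact_mod_cast hq.pos
    have hι : Fintype.card ι = Module.finrank ℚ K := by
      rw [← NumberField.RingOfIntegers.rank K, Module.finrank_eq_card_basis b]
    have hcard : Fintype.card (ι ⊕ ι) = 2 * Module.finrank ℚ K := by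
      rw [Fintype.card_sum, hι]
      ring
    have hb1 : (q : ℝ) / 2 ≤ ((Good v1).ncard : ℝ) := by
      have := good_inv hq (by omega) v1 hq1 y h0 h1
      rw [← hG1, hc1] at this
      have h2 : (q : ℝ) ≤ ((Good v1).ncard : ℝ) + 1 := by exact_mod_cast this
      have h3 : (17 : ℝ) ≤ q := by exact_mod_cast h17
      linarith
    have hb2 : ∀ v ∈ V, v ≠ v1 → ((Nat.card (𝓞 K ⧸ v.asIdeal) : ℝ)) ^ 2 / 2 ≤ ((Good v).ncard : ℝ) := by
      intro v hv hne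
      have := good_ord hq h17 v ((hV v).1 hv)
      rw [← hG2 v hne] at this
      have h2 : ((Nat.card (𝓞 K ⧸ v.asIdeal) : ℝ)) ^ 2 ≤ 2 * ((Good v).ncard : ℝ) := by exact_mod_cast this
      linarith
    have hP : (∏ v ∈ V, ((Nat.card (𝓞 K ⧸ v.asIdeal) : ℝ)) ^ 2 / 2) / q ≤ ∏ v ∈ V, ((Good v).ncard : ℝ) := by
      rw [← Finset.mul_prod_erase V _ hv1V, ← Finset.mul_prod_erase V (fun v => ((Good v).ncard : ℝ)) hv1V, hc1]
      have e1 : (q : ℝ) ^ 2 / 2 * (∏ x ∈ V.erase v1, ((Nat.card (𝓞 K ⧸ x.asIdeal) : ℝ)) ^ 2 / 2) / q =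
          (q : ℝ) / 2 * ∏ x ∈ V.erase v1, ((Nat.card (𝓞 K ⧸ x.asIdeal) : ℝ)) ^ 2 / 2 := by
        field_simp
      rw [e1]
      apply mul_le_mul hb1 _ (Finset.prod_nonneg fun _ _ => by positivity) (by positivity)
      apply Finset.prod_le_prod (fun _ _ => by positivity)
      intro v hv
      exact hb2 v (Finset.mem_of_mem_erase hv) (Finset.ne_of_mem_erase hv)
    have hprod' : ∏ v ∈ V, (Nat.card (𝓞 K ⧸ v.asIdeal) : ℝ) = (q : ℝ) ^ Module.finrank ℚ K := by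
      exact_mod_cast hprod
    have hP2 : (∏ v ∈ V, ((Nat.card (𝓞 K ⧸ v.asIdeal) : ℝ)) ^ 2 / 2) =
        ((q : ℝ) ^ Module.finrank ℚ K) ^ 2 / 2 ^ V.card := by
      rw [Finset.prod_div_distrib, Finset.prod_pow, hprod', Finset.prod_const]
    have hle' : (∏ v ∈ V, ((Good v).ncard : ℝ)) ≤ ((Gset b q V Good).ncard : ℝ) := by exact_mod_cast hle
    rw [hP2] at hP
    rw [hcard]
    refine le_trans ?_ (le_trans hP hle')
    have e2 : (1 / 2 ^ Module.finrank ℚ K : ℝ) / q * (q : ℝ) ^ (2 * Module.finrank ℚ K) =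
        ((q : ℝ) ^ Module.finrank ℚ K) ^ 2 / 2 ^ Module.finrank ℚ K / q := by
      rw [← pow_mul, mul_comm (Module.finrank ℚ K) 2]
      ring
    rw [e2]
    apply div_le_div_of_nonneg_right _ hqpos.le
    apply div_le_div_of_nonneg_left (by positivity) (by positivity)
    exact pow_le_pow_right₀ (by norm_num) hcardV
  · intro z hz
    have hmem := Gset_mem b hq V (fun v hv => (hV v).1 hv) Good z hz
    have g1 := hmem v1 ((hV v1).2 hq1)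
    rw [hG1] at g1
    refine sig_eq (by omega) _ _ v1 hq1 hc1 y hss g1.1 g1.2 ?_
    intro v hv hne
    have g2 := hmem v ((hV v).2 hv)
    rw [hG2 v hne] at g2
    exact g2

end Pool.Agent.SS.DD
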