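import Mathlib

/-!
# Module D4/Cnt (S-M): the number of ideals of norm at most `X`

PROOF. `Ideal.finite_setOf_absNorm_le` (or `Ideal.finite_setOfPred_absNorm_le`, see `Mathlib/RingTheory/Ideal/Norm/AbsNorm.lean`), and
`Ideal.tendsto_norm_le_div_atTop₀` (`Mathlib/NumberTheory/NumberField/Ideal/Asymptotics.lean`): the number of (nonzero) ideals of norm `≤ s` divided by `s` tends to the
residue `> 0` of the zeta function (`dedekindZeta_residue_pos`). Upper bound for all `X`: beyond some `X0` by the limit; for `X < X0` by a finite maximum (`X = 0`: no ideal,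
`absNorm I ≥ 1` for `I ≠ ⊥`).
`cnt_mul`: `I = P * J` (`J` unique, `J ≠ ⊥`), `absNorm J ≤ X / absNorm P`.
-/

set_option autoImplicit false

namespace Pool.Agent.SS.DD

open NumberField

variable (M : Type) [Field M] [NumberField M]

theorem cnt_finite (X : ℕ) : {I : Ideal (𝓞 M) | I ≠ ⊥ ∧ Ideal.absNorm I ≤ X}.Finite :=
  (Ideal.finite_setOfPred_absNorm_le (S := 𝓞 M) X).subset fun _ h => h.2

private theorem cnt_card (X : ℕ) : {I : Ideal (𝓞 M) | I ≠ ⊥ ∧ Ideal.absNorm I ≤ X}.ncard =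
    Nat.card {I : (nonZeroDivisors (Ideal (𝓞 M))) //
      (Ideal.absNorm (I : Ideal (𝓞 M)) : ℝ) ≤ (X : ℝ)} := by
  rw [← Nat.card_coe_set_eq]
  refine Nat.card_congr
    { toFun := fun I => ⟨⟨I.1, mem_nonZeroDivisors_of_ne_zero I.2.1⟩, by exact_mod_cast I.2.2⟩
      invFun := fun I => ⟨(I.1 : Ideal (𝓞 M)), nonZeroDivisors.ne_zero I.1.2, by exact_mod_cast I.2⟩
      left_inv := fun _ => rfl
      right_inv := fun _ => rfl }

theorem cnt_bounds : ∃ C c : ℝ, 0 < C ∧ 0 < c ∧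
    (∀ X : ℕ, ({I : Ideal (𝓞 M) | I ≠ ⊥ ∧ Ideal.absNorm I ≤ X}.ncard : ℝ) ≤ C * X) ∧
    ∃ X0 : ℕ, ∀ X : ℕ, X0 ≤ X →
      c * X ≤ ({I : Ideal (𝓞 M) | I ≠ ⊥ ∧ Ideal.absNorm I ≤ X}.ncard : ℝ) := by
  set r : ℝ := (2 ^ NumberField.InfinitePlace.nrRealPlaces M * (2 * Real.pi) ^
    NumberField.InfinitePlace.nrComplexPlaces M * NumberField.Units.regulator M *
      NumberField.classNumber M) / (NumberField.Units.torsionOrder M *
        Real.sqrt |NumberField.discr M|) with hr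
  have hr0 : 0 < r := NumberField.dedekindZeta_residue_pos M
  have h1 := (NumberField.Ideal.tendsto_norm_le_div_atTop₀ M).comp tendsto_natCast_atTop_atTop
  have h2 := h1.eventually (Ioo_mem_nhds (show r / 2 < r by linarith) (show r < r + 1 by linarith))
  obtain ⟨X1, hX1⟩ := Filter.eventually_atTop.1 h2
  set n : ℕ → ℕ := fun X => {I : Ideal (𝓞 M) | I ≠ ⊥ ∧ Ideal.absNorm I ≤ X}.ncard with hn
  have h3 : ∀ X : ℕ, X1 + 1 ≤ X → r / 2 * X ≤ n X ∧ (n X : ℝ) ≤ (r + 1) * X := by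
    intro X hX
    have h4 := hX1 X (by omega)
    have hX0 : (0 : ℝ) < X := by exact_mod_cast (show 0 < X by omega)
    simp only [Function.comp_apply] at h4
    rw [← cnt_card M X] at h4
    constructor
    · exact ((lt_div_iff₀ hX0).1 h4.1).le
    · exact ((div_lt_iff₀ hX0).1 h4.2).le
  have hmono : ∀ X : ℕ, X ≤ X1 + 1 → n X ≤ n (X1 + 1) := by
    intro X hX
    refine Set.ncard_le_ncard ?_ (cnt_finite M _)
    intro I hI
    exact ⟨hI.1, hI.2.trans hX⟩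
  refine ⟨r + 1 + n (X1 + 1), r / 2, by positivity, by positivity, ?_, X1 + 1, fun X hX => (h3 X hX).1⟩
  intro X
  rcases le_total (X1 + 1) X with hX | hX
  · refine (h3 X hX).2.trans ?_
    have h9 : (0 : ℝ) ≤ n (X1 + 1) := Nat.cast_nonneg _
    exact mul_le_mul_of_nonneg_right (by linarith) (Nat.cast_nonneg X)
  · rcases Nat.eq_zero_or_pos X with h0 | h0
    · subst h0
      have h5 : {I : Ideal (𝓞 M) | I ≠ ⊥ ∧ Ideal.absNorm I ≤ 0} = ∅ := by
        rw [Set.eq_empty_iff_forall_notMem]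
        rintro I ⟨h6, h7⟩
        exact h6 (Ideal.absNorm_eq_zero_iff.1 (Nat.le_zero.1 h7))
      rw [h5]
      simp
    · have hX0 : (1 : ℝ) ≤ X := by exact_mod_cast h0
      have h8 : (n X : ℝ) ≤ n (X1 + 1) := by exact_mod_cast hmono X hX
      have h9 : (0 : ℝ) ≤ n (X1 + 1) := Nat.cast_nonneg _
      change (n X : ℝ) ≤ _
      nlinarith

theorem cnt_mul (P : Ideal (𝓞 M)) (h0 : P ≠ ⊥) (X : ℕ) :
    {I : Ideal (𝓞 M) | I ≠ ⊥ ∧ Ideal.absNorm I ≤ X ∧ P ∣ I}.ncard ≤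
      {I : Ideal (𝓞 M) | I ≠ ⊥ ∧ Ideal.absNorm I ≤ X / Ideal.absNorm P}.ncard := by
  have hsub : {I : Ideal (𝓞 M) | I ≠ ⊥ ∧ Ideal.absNorm I ≤ X ∧ P ∣ I} ⊆
      (fun J => P * J) '' {I : Ideal (𝓞 M) | I ≠ ⊥ ∧ Ideal.absNorm I ≤ X / Ideal.absNorm P} := by
    rintro I ⟨h1, h2, J, rfl⟩
    refine ⟨J, ⟨?_, ?_⟩, rfl⟩
    · rintro rfl
      exact h1 (Ideal.mul_bot P)
    · have h3 : 0 < Ideal.absNorm P :=
        Nat.pos_of_ne_zero fun h => h0 (Ideal.absNorm_eq_zero_iff.1 h)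
      rw [Nat.le_div_iff_mul_le h3, mul_comm, ← map_mul]
      exact h2
  exact (Set.ncard_le_ncard hsub ((cnt_finite M _).image _)).trans
    (Set.ncard_image_le (cnt_finite M _))

end Pool.Agent.SS.DD
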