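import Mathlib

/-!
# Module D4/Smooth (M): ideals composed of finitely many primes are rare

PROOF. `I ≠ ⊥` is determined by the multiplicities `n_P = (normalizedFactors I).count P`, `P ∈ T` (unique factorization of ideals; all normalized factors are in `T`), and
`2 ^ n_P ≤ absNorm P ^ n_P ≤ absNorm I ≤ X` (`absNorm P ≥ 2` as `P ≠ ⊤`), so `n_P ≤ log₂ X`: the set injects into the functions `T → {0, …, Nat.log 2 X}`, at most
`(Nat.log 2 X + 1) ^ T.card` elements. And `(Nat.log 2 X + 1) ^ r / X → 0` (`Real.isLittleO_log_rpow...`, `isLittleO_pow_log_id_atTop`, or: for `X ≥ 2`,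
`Nat.log 2 X ≤ k` with `2 ^ k ≤ X`, and `(k + 1) ^ r / 2 ^ k → 0`).
-/

set_option autoImplicit false

namespace Pool.Agent.SS.DD

open NumberField

variable (M : Type) [Field M] [NumberField M]

private theorem count_le {I : Ideal (𝓞 M)} (hI : I ≠ ⊥) {X : ℕ} (hX : Ideal.absNorm I ≤ X)
    (P : Ideal (𝓞 M)) [DecidableEq (Ideal (𝓞 M))] :
    (UniqueFactorizationMonoid.normalizedFactors I).count P ≤ Nat.log 2 X := by
  by_cases h0 : (UniqueFactorizationMonoid.normalizedFactors I).count P = 0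
  · rw [h0]
    exact Nat.zero_le _
  have hmem : P ∈ UniqueFactorizationMonoid.normalizedFactors I :=
    Multiset.count_ne_zero.mp h0
  have hpr : Prime P := UniqueFactorizationMonoid.prime_of_normalized_factor P hmem
  have hPp : P.IsPrime := Ideal.isPrime_of_prime hpr
  have hdvd : P ^ (UniqueFactorizationMonoid.normalizedFactors I).count P ∣ I := by
    have h1 : Multiset.replicate ((UniqueFactorizationMonoid.normalizedFactors I).count P) P ≤
        UniqueFactorizationMonoid.normalizedFactors I := Multiset.le_count_iff_replicate_le.mp le_rfl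
    have h2 := Multiset.prod_dvd_prod_of_le h1
    rw [Multiset.prod_replicate, Ideal.prod_normalizedFactors_eq_self hI] at h2
    exact h2
  have h2 : Ideal.absNorm P ^ (UniqueFactorizationMonoid.normalizedFactors I).count P ∣
      Ideal.absNorm I := by
    rw [← map_pow]
    exact map_dvd Ideal.absNorm hdvd
  have hIpos : 0 < Ideal.absNorm I := by
    rw [Nat.pos_iff_ne_zero, Ne, Ideal.absNorm_eq_zero_iff]
    exact hI
  have hP2 : 2 ≤ Ideal.absNorm P := by
    have h3 : Ideal.absNorm P ≠ 0 := by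
      rw [Ne, Ideal.absNorm_eq_zero_iff]
      exact hpr.ne_zero
    have h4 : Ideal.absNorm P ≠ 1 := by
      rw [Ne, Ideal.absNorm_eq_one_iff]
      exact hPp.ne_top
    omega
  have h5 : 2 ^ (UniqueFactorizationMonoid.normalizedFactors I).count P ≤ X :=
    (Nat.pow_le_pow_left hP2 _).trans ((Nat.le_of_dvd hIpos h2).trans hX)
  exact Nat.le_log_of_pow_le (by norm_num) h5

private theorem log_small (r : ℕ) (ε : ℝ) (hε : 0 < ε) :
    ∃ X0 : ℕ, ∀ X : ℕ, X0 ≤ X → (((Nat.log 2 X + 1) ^ r : ℕ) : ℝ) ≤ ε * X := by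
  have h1 := tendsto_pow_const_div_const_pow_of_one_lt r (r := (2 : ℝ)) (by norm_num)
  have h2 := (h1.eventually (gt_mem_nhds (show (0 : ℝ) < ε / 2 by positivity)))
  obtain ⟨K, hK⟩ := Filter.eventually_atTop.1 h2
  refine ⟨2 ^ K, fun X hX => ?_⟩
  have hX0 : X ≠ 0 := by
    rintro rfl
    have : 0 < 2 ^ K := by positivity
    omega
  have hk : K ≤ Nat.log 2 X := Nat.le_log_of_pow_le (by norm_num) hX
  have h3 := hK (Nat.log 2 X + 1) (by omega)
  rw [div_lt_iff₀ (by positivity)] at h3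
  have h4 : (2 : ℝ) ^ Nat.log 2 X ≤ X := by
    exact_mod_cast Nat.pow_log_le_self 2 hX0
  push_cast at h3 ⊢
  calc ((Nat.log 2 X : ℝ) + 1) ^ r ≤ ε / 2 * 2 ^ (Nat.log 2 X + 1) := h3.le
    _ = ε * 2 ^ Nat.log 2 X := by rw [pow_succ]; ring
    _ ≤ ε * X := mul_le_mul_of_nonneg_left h4 hε.le

theorem smooth_small (T : Finset (Ideal (𝓞 M))) (ε : ℝ) (hε : 0 < ε) :
    ∃ X0 : ℕ, ∀ X : ℕ, X0 ≤ X →
      {I : Ideal (𝓞 M) | I ≠ ⊥ ∧ Ideal.absNorm I ≤ X ∧
        ∀ P : Ideal (𝓞 M), P.IsPrime → P ∣ I → P ∈ T}.Finite ∧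
      ({I : Ideal (𝓞 M) | I ≠ ⊥ ∧ Ideal.absNorm I ≤ X ∧
        ∀ P : Ideal (𝓞 M), P.IsPrime → P ∣ I → P ∈ T}.ncard : ℝ) ≤ ε * X := by
  classical
  obtain ⟨X0, hX0⟩ := log_small T.card ε hε
  refine ⟨X0, fun X hX => ?_⟩
  let F : Ideal (𝓞 M) → (T → ℕ) := fun I P =>
    (UniqueFactorizationMonoid.normalizedFactors I).count (P : Ideal (𝓞 M))
  let B : Finset (T → ℕ) := Fintype.piFinset fun _ => Finset.range (Nat.log 2 X + 1)
  have hmaps : ∀ I ∈ {I : Ideal (𝓞 M) | I ≠ ⊥ ∧ Ideal.absNorm I ≤ X ∧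
        ∀ P : Ideal (𝓞 M), P.IsPrime → P ∣ I → P ∈ T}, F I ∈ (B : Set (T → ℕ)) := by
    intro I hI
    rw [Finset.mem_coe, Fintype.mem_piFinset]
    intro P
    rw [Finset.mem_range, Nat.lt_succ_iff]
    exact count_le M hI.1 hI.2.1 P
  have hinj : Set.InjOn F {I : Ideal (𝓞 M) | I ≠ ⊥ ∧ Ideal.absNorm I ≤ X ∧
        ∀ P : Ideal (𝓞 M), P.IsPrime → P ∣ I → P ∈ T} := by
    intro I hI J hJ hIJ
    rw [← Ideal.prod_normalizedFactors_eq_self hI.1, ← Ideal.prod_normalizedFactors_eq_self hJ.1]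
    congr 1
    ext P
    by_cases hP : P ∈ T
    · exact congrFun hIJ ⟨P, hP⟩
    · have h1 : ∀ A : Ideal (𝓞 M), (∀ P : Ideal (𝓞 M), P.IsPrime → P ∣ A → P ∈ T) →
          (UniqueFactorizationMonoid.normalizedFactors A).count P = 0 := by
        intro A hA
        rw [Multiset.count_eq_zero]
        intro hmem
        exact hP (hA P (Ideal.isPrime_of_prime
          (UniqueFactorizationMonoid.prime_of_normalized_factor P hmem))
          (UniqueFactorizationMonoid.dvd_of_mem_normalizedFactors hmem))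
      rw [h1 I hI.2.2, h1 J hJ.2.2]
  have hfin := Set.Finite.of_injOn hmaps hinj B.finite_toSet
  refine ⟨hfin, ?_⟩
  have h2 := Set.ncard_le_ncard_of_injOn F hmaps hinj B.finite_toSet
  rw [Set.ncard_coe_finset] at h2
  have h3 : B.card = (Nat.log 2 X + 1) ^ T.card := by
    simp only [B, Fintype.card_piFinset, Finset.card_range, Finset.prod_const, Finset.card_univ,
      Fintype.card_coe]
  rw [h3] at h2
  calc (_ : ℝ) ≤ (((Nat.log 2 X + 1) ^ T.card : ℕ) : ℝ) := by exact_mod_cast h2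
    _ ≤ ε * X := hX0 X hX

end Pool.Agent.SS.DD
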