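import Mathlib
import Pool.Agent.Work.MP_a5099b_nt.D4.NumP
import Pool.Agent.Work.MP_a5099b_nt.D4.Smooth
import Pool.Agent.Work.MP_a5099b_nt.D4.Cnt

/-!
# Module D4/SumInv (M-L): the sum of `1 / q` over the primes below the degree one primes of `M` diverges

PROOF. Suppose not: for some `N`, `R` every finite set `S` of such primes `q > N` has `∑ 1/q < R`. Then the family `1/q` (over the set `Q₁` of these primes) is summable
(`summable_of_sum_le`), so for `ε > 0` there is `y ≥ N` such that the finite sums over `Q₁ ∩ (y, ∞)` are `≤ ε` (tail of a summable series, e.g. `Summable.tendsto_cofinite...`,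
`summable_iff_vanishing`), and `∑_{q > y} 1/q² ≤ ε` for `y` large (`Summable` of `1/n²`). Let `n = finrank ℚ M`, `c`, `C` as in `cnt_bounds`, `T` = the prime ideals above the primes
`≤ y` (and `⊥` if wanted; finite, `card_above`). For `X` large: an ideal `I ≠ ⊥` with `absNorm I ≤ X` either has all its prime divisors in `T` (at most `ε X` such `I`,
`smooth_small`), or is divisible by a prime ideal `P` above a prime `q > y`, with `q ≤ absNorm P ≤ X` (finitely many `P`); the number of such `I` is at most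
`∑_P C (X / absNorm P)` (`cnt_mul`, `Nat.cast_div_le`), and the `P` above `q` contribute at most `n C X / q` if `q ∈ Q₁` and at most `n C X / q²` if `q ∉ Q₁` (then all the
norms are `≥ q²`, `norm_above`; note `absNorm P = q ^ 1` gives `q ∈ Q₁`). Hence `c X ≤ ε X + n C (ε + ε) X`, false for small `ε`.
-/

set_option autoImplicit false

namespace Pool.Agent.SS.DD

open NumberField IsDedekindDomain

private theorem ne_bot_of_mem_si (M : Type) [Field M] [NumberField M] {q : ℕ} (hq : q.Prime)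
    {P : Ideal (𝓞 M)} (hqP : (q : 𝓞 M) ∈ P) : P ≠ ⊥ := by
  rintro rfl
  rw [Ideal.mem_bot] at hqP
  exact hq.ne_zero (by exact_mod_cast hqP)

/-- The counting bound for the ideals divisible by a given prime ideal above `q`. -/
private theorem count_div (M : Type) [Field M] [NumberField M] {C : ℝ} (hC : 0 < C)
    (hup : ∀ X : ℕ, ({I : Ideal (𝓞 M) | I ≠ ⊥ ∧ Ideal.absNorm I ≤ X}.ncard : ℝ) ≤ C * X)
    (P : Ideal (𝓞 M)) (h0 : P ≠ ⊥) (X : ℕ) :
    ({I : Ideal (𝓞 M) | I ≠ ⊥ ∧ Ideal.absNorm I ≤ X ∧ P ∣ I}.ncard : ℝ) ≤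
      C * X * (1 / Ideal.absNorm P) := by
  calc ({I : Ideal (𝓞 M) | I ≠ ⊥ ∧ Ideal.absNorm I ≤ X ∧ P ∣ I}.ncard : ℝ)
      ≤ ({I : Ideal (𝓞 M) | I ≠ ⊥ ∧ Ideal.absNorm I ≤ X / Ideal.absNorm P}.ncard : ℝ) := by
        exact_mod_cast cnt_mul M P h0 X
    _ ≤ C * ((X / Ideal.absNorm P : ℕ) : ℝ) := hup _
    _ ≤ C * ((X : ℝ) / (Ideal.absNorm P : ℝ)) := mul_le_mul_of_nonneg_left Nat.cast_div_le hC.le
    _ = C * X * (1 / Ideal.absNorm P) := by ring

theorem sum_inv (M : Type) [Field M] [NumberField M] (N : ℕ) (R : ℝ) :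
    ∃ S : Finset ℕ, (∀ q ∈ S, q.Prime ∧ N < q ∧
      ∃ v : HeightOneSpectrum (𝓞 M), (q : 𝓞 M) ∈ v.asIdeal ∧ Nat.card (𝓞 M ⧸ v.asIdeal) = q) ∧
      R ≤ ∑ q ∈ S, (1 : ℝ) / q := by
  classical
  by_contra hcon
  push Not at hcon
  let Good : ℕ → Prop := fun q => q.Prime ∧ N < q ∧
      ∃ v : HeightOneSpectrum (𝓞 M), (q : 𝓞 M) ∈ v.asIdeal ∧ Nat.card (𝓞 M ⧸ v.asIdeal) = q
  let a : ℕ → ℝ := fun q => if Good q then 1 / q else 0
  let b : ℕ → ℝ := fun q => 1 / (q : ℝ) ^ 2
  have ha0 : ∀ q, 0 ≤ a q := by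
    intro q
    simp only [a]
    split_ifs <;> positivity
  have hb0 : ∀ q, 0 ≤ b q := fun q => by positivity
  have ha : Summable a := by
    refine summable_of_sum_le (c := R) ha0 fun u => ?_
    simp only [a]
    rw [← Finset.sum_filter]
    exact (hcon (u.filter Good) (fun q hq => (Finset.mem_filter.1 hq).2)).le
  have hb : Summable b := by
    simp only [b]
    exact Real.summable_one_div_nat_pow.mpr (by norm_num)
  have hw : Summable (fun q => a q + b q) := ha.add hb
  obtain ⟨C, c, hC, hc, hup, X1, hlow⟩ := cnt_bounds M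
  have hn : 0 < Module.finrank ℚ M := Module.finrank_pos
  have hnR : (0 : ℝ) < Module.finrank ℚ M := by exact_mod_cast hn
  obtain ⟨s, hs⟩ := summable_iff_vanishing_norm.1 hw (c / (4 * (Module.finrank ℚ M * C)))
    (by positivity)
  let y : ℕ := max N (s.sup id)
  let A : ℕ → Finset (Ideal (𝓞 M)) := fun q =>
    if hq : q.Prime then (card_above M hq).1.toFinset else ∅
  have hA : ∀ {q : ℕ} (_ : q.Prime) {P : Ideal (𝓞 M)}, P ∈ A q ↔ P.IsPrime ∧ (q : 𝓞 M) ∈ P := by
    intro q hq P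
    simp only [A, dif_pos hq, Set.Finite.mem_toFinset, Set.mem_ofPred_eq]
  have hAcard : ∀ {q : ℕ} (_ : q.Prime), (A q).card ≤ Module.finrank ℚ M := by
    intro q hq
    simp only [A, dif_pos hq]
    rw [← Set.ncard_eq_toFinset_card _ (card_above M hq).1]
    exact (card_above M hq).2
  let T : Finset (Ideal (𝓞 M)) := (Finset.range (y + 1)).biUnion A
  obtain ⟨X2, hX2⟩ := smooth_small M T (c / 4) (by positivity)
  let X : ℕ := max (max X1 X2) 1
  have hX1 : X1 ≤ X := (le_max_left _ _).trans (le_max_left _ _)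
  have hX2' : X2 ≤ X := (le_max_right _ _).trans (le_max_left _ _)
  have hXpos : 0 < X := lt_of_lt_of_le one_pos (le_max_right _ _)
  have hXR : (0 : ℝ) < X := by exact_mod_cast hXpos
  let U : Finset (Ideal (𝓞 M)) := (cnt_finite M X).toFinset
  have hU : ∀ {I : Ideal (𝓞 M)}, I ∈ U ↔ I ≠ ⊥ ∧ Ideal.absNorm I ≤ X := by
    intro I
    simp only [U, Set.Finite.mem_toFinset, Set.mem_ofPred_eq]
  have hUcard : ({I : Ideal (𝓞 M) | I ≠ ⊥ ∧ Ideal.absNorm I ≤ X}.ncard : ℝ) = U.card := by
    rw [Set.ncard_eq_toFinset_card _ (cnt_finite M X)]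
  let U1 : Finset (Ideal (𝓞 M)) := U.filter fun I =>
    ∀ P : Ideal (𝓞 M), P.IsPrime → P ∣ I → P ∈ T
  have hU1 : (U1.card : ℝ) ≤ c / 4 * X := by
    have h1 := (hX2 X hX2').2
    have h2 : {I : Ideal (𝓞 M) | I ≠ ⊥ ∧ Ideal.absNorm I ≤ X ∧
        ∀ P : Ideal (𝓞 M), P.IsPrime → P ∣ I → P ∈ T} = (U1 : Set (Ideal (𝓞 M))) := by
      ext I
      simp only [U1, Finset.coe_filter, hU, Set.mem_ofPred_eq, and_assoc]
    rwa [h2, Set.ncard_coe_finset] at h1
  let Pr : Finset ℕ := (Finset.Ioc y X).filter Nat.Prime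
  have hcover : U ⊆ U1 ∪ Pr.biUnion fun q => (A q).biUnion fun P => U.filter fun I => P ∣ I := by
    intro I hI
    by_cases h1 : ∀ P : Ideal (𝓞 M), P.IsPrime → P ∣ I → P ∈ T
    · exact Finset.mem_union_left _ (Finset.mem_filter.2 ⟨hI, h1⟩)
    · push Not at h1
      obtain ⟨P, hP, hPI, hPT⟩ := h1
      have hI' := hU.1 hI
      have hP0 : P ≠ ⊥ := by
        rintro rfl
        exact hI'.1 (by
          have := Ideal.dvd_iff_le.1 hPI
          exact le_bot_iff.1 this)
      obtain ⟨q, hq, hqP⟩ := exists_below M P hP hP0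
      have hqy : y < q := by
        by_contra h2
        apply hPT
        refine Finset.mem_biUnion.2 ⟨q, Finset.mem_range.2 (by omega), (hA hq).2 ⟨hP, hqP⟩⟩
      have hqX : q ≤ X := by
        obtain ⟨f, hf, hN⟩ := norm_above M hq P hP hqP
        have h3 : Ideal.absNorm P ∣ Ideal.absNorm I := map_dvd Ideal.absNorm hPI
        have hIpos : 0 < Ideal.absNorm I := by
          rw [Nat.pos_iff_ne_zero, Ne, Ideal.absNorm_eq_zero_iff]
          exact hI'.1
        calc q = q ^ 1 := (pow_one q).symm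
          _ ≤ q ^ f := Nat.pow_le_pow_right hq.pos hf
          _ = Ideal.absNorm P := hN.symm
          _ ≤ Ideal.absNorm I := Nat.le_of_dvd hIpos h3
          _ ≤ X := hI'.2
      refine Finset.mem_union_right _ (Finset.mem_biUnion.2 ⟨q, Finset.mem_filter.2
        ⟨Finset.mem_Ioc.2 ⟨hqy, hqX⟩, hq⟩, Finset.mem_biUnion.2 ⟨P, (hA hq).2 ⟨hP, hqP⟩,
        Finset.mem_filter.2 ⟨hI, hPI⟩⟩⟩)
  have hone : ∀ q ∈ Pr, ∀ P ∈ A q, ((U.filter fun I => P ∣ I).card : ℝ) ≤
      C * X * (a q + b q) := by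
    intro q hq P hP
    have hq' := Finset.mem_filter.1 hq
    have hqp : q.Prime := hq'.2
    obtain ⟨hPp, hqP⟩ := (hA hqp).1 hP
    have hP0 := ne_bot_of_mem_si M hqp hqP
    have h1 := count_div M hC hup P hP0 X
    have h2 : {I : Ideal (𝓞 M) | I ≠ ⊥ ∧ Ideal.absNorm I ≤ X ∧ P ∣ I} =
        ((U.filter fun I => P ∣ I : Finset (Ideal (𝓞 M))) : Set (Ideal (𝓞 M))) := by
      ext I
      simp only [Finset.coe_filter, hU, Set.mem_ofPred_eq, and_assoc]
    rw [h2, Set.ncard_coe_finset] at h1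
    refine h1.trans (mul_le_mul_of_nonneg_left ?_ (by positivity))
    obtain ⟨f, hf, hN⟩ := norm_above M hqp P hPp hqP
    have hqR : (1 : ℝ) ≤ q := by exact_mod_cast hqp.one_lt.le
    by_cases hf1 : f = 1
    · subst hf1
      rw [pow_one] at hN
      have hgood : Good q := by
        refine ⟨hqp, ?_, ⟨P, hPp, hP0⟩, hqP, ?_⟩
        · have := (Finset.mem_Ioc.1 hq'.1).1
          exact lt_of_le_of_lt (le_max_left _ _) this
        · rw [← hN, Ideal.absNorm_apply, Submodule.cardQuot_apply]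
      have h3 : a q = 1 / q := by simp only [a, if_pos hgood]
      rw [hN, h3]
      linarith [hb0 q]
    · have h3 : (q : ℝ) ^ 2 ≤ Ideal.absNorm P := by
        rw [hN]
        push_cast
        exact pow_le_pow_right₀ hqR (by omega)
      have h4 : (1 : ℝ) / Ideal.absNorm P ≤ b q :=
        one_div_le_one_div_of_le (by positivity) h3
      linarith [ha0 q]
  have hsum : ∑ q ∈ Pr, (a q + b q) ≤ c / (4 * (Module.finrank ℚ M * C)) := by
    have h1 := hs Pr (by
      rw [Finset.disjoint_left]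
      intro q hq hqs
      have h2 := (Finset.mem_Ioc.1 (Finset.mem_filter.1 hq).1).1
      have h3 : q ≤ s.sup id := Finset.le_sup (f := id) hqs
      have h4 : s.sup id ≤ y := le_max_right _ _
      omega)
    exact (le_abs_self _).trans h1.le
  have hfin : (U.card : ℝ) ≤ c / 4 * X + Module.finrank ℚ M * (C * X * ∑ q ∈ Pr, (a q + b q)) := by
    have h1 : U.card ≤ U1.card + ∑ q ∈ Pr, ∑ P ∈ A q, (U.filter fun I => P ∣ I).card := by
      refine (Finset.card_le_card hcover).trans ((Finset.card_union_le _ _).trans ?_)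
      refine Nat.add_le_add_left (Finset.card_biUnion_le.trans ?_) _
      exact Finset.sum_le_sum fun q _ => Finset.card_biUnion_le
    have h2 : (U.card : ℝ) ≤ U1.card + ∑ q ∈ Pr, ∑ P ∈ A q,
        ((U.filter fun I => P ∣ I).card : ℝ) := by exact_mod_cast h1
    refine h2.trans (add_le_add hU1 ?_)
    rw [Finset.mul_sum, Finset.mul_sum]
    refine Finset.sum_le_sum fun q hq => ?_
    calc ∑ P ∈ A q, ((U.filter fun I => P ∣ I).card : ℝ)
        ≤ ∑ _P ∈ A q, C * X * (a q + b q) := Finset.sum_le_sum fun P hP => hone q hq P hP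
      _ = (A q).card * (C * X * (a q + b q)) := by rw [Finset.sum_const, nsmul_eq_mul]
      _ ≤ Module.finrank ℚ M * (C * X * (a q + b q)) := by
        refine mul_le_mul_of_nonneg_right ?_ ?_
        · exact_mod_cast hAcard (Finset.mem_filter.1 hq).2
        · have := ha0 q
          have := hb0 q
          positivity
  have hlow' := hlow X hX1
  rw [hUcard] at hlow'
  have h5 : (Module.finrank ℚ M : ℝ) * (C * X * ∑ q ∈ Pr, (a q + b q)) ≤ c / 4 * X := by
    calc (Module.finrank ℚ M : ℝ) * (C * X * ∑ q ∈ Pr, (a q + b q))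
        ≤ Module.finrank ℚ M * (C * X * (c / (4 * (Module.finrank ℚ M * C)))) := by
          refine mul_le_mul_of_nonneg_left (mul_le_mul_of_nonneg_left hsum (by positivity))
            hnR.le
      _ = c / 4 * X := by field_simp
  have h6 : c * X ≤ c / 2 * X := by linarith
  have h7 : c / 2 * X < c * X := by
    have := mul_pos hc hXR
    linarith
  linarith

end Pool.Agent.SS.DD
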