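import Mathlib
import Pool.Agent.Work.MP_a5099b_nt.D4.SumInv
import Pool.Agent.Work.MP_a5099b_nt.D4.NormQ

/-!
# Module D4/Deg24 (M): primes `q ≡ 1 mod 24` with a place of degree one

PROOF. `M = CyclotomicField 24 K` (number field: `IsCyclotomicExtension.numberField {24} K _`; `Type`). Apply `sum_inv M N'` with `N' = max N (max 24 B)`, `B` from `unram K`. Let `w` be a place of `M` with
`Nat.card (O_M/w) = q`. `v = w ∩ O_K` (`Ideal.comap (algebraMap (𝓞 K) (𝓞 M))`; `HeightOneSpectrum.under` or by hand: a prime ideal containing `q`, not `⊥`): `O_K/v` embeds in `O_M/w`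
(`Ideal.quotientMap` injective), its number of elements divides/is at most `q` and it has characteristic `q` (so at least `q` elements): `Nat.card (O_K/v) = q`. `q ≡ 1 mod 24`: `ζ ∈ O_M` a primitive
24-th root of unity (`IsCyclotomicExtension.zeta_spec 24 K M`, `IsPrimitiveRoot.toInteger`); its image in `O_M/w` (a field with `q` elements, `q > 24`, so `24 ≠ 0`) is a primitive 24-th root of
unity (`IsPrimitiveRoot` modulo a prime: it is a root of `cyclotomic 24`: `Polynomial.isRoot_cyclotomic_iff` with `NeZero (24 : O_M/w)`), so `24 ∣ q - 1` (`orderOf_dvd_card`, `Nat.card_units`).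
-/

set_option autoImplicit false

namespace Pool.Agent.SS.DD

open NumberField IsDedekindDomain

private theorem deg24_mod {F : Type} [Field F] {q : ℕ} (hq : q.Prime) (h24 : 24 < q)
    (hcard : Nat.card F = q) (hF : (q : F) = 0) {z : F}
    (hz : (Polynomial.cyclotomic 24 F).IsRoot z) : q % 24 = 1 := by
  have : Finite F := Nat.finite_of_card_ne_zero (by rw [hcard]; exact hq.ne_zero)
  have : Fintype F := Fintype.ofFinite F
  have : CharP F q := by
    obtain ⟨p, hp⟩ := CharP.exists F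
    have h1 : p ∣ q := (CharP.cast_eq_zero_iff F p q).1 hF
    rcases (Nat.dvd_prime hq).1 h1 with h | h
    · subst h
      exact absurd hp (by intro h; exact CharP.ringChar_ne_one (R := F) (CharP.eq F (ringChar.charP F) h))
    · subst h
      exact hp
  have : NeZero ((24 : ℕ) : F) := by
    refine ⟨fun h => ?_⟩
    have h2 : q ∣ 24 := (CharP.cast_eq_zero_iff F q 24).1 h
    have h3 := Nat.le_of_dvd (by norm_num) h2
    omega
  have hp : IsPrimitiveRoot z 24 := Polynomial.isRoot_cyclotomic_iff.1 hz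
  have hu : IsUnit z := hp.isUnit (by norm_num)
  obtain ⟨u, rfl⟩ := hu
  have hpu : IsPrimitiveRoot u 24 := IsPrimitiveRoot.coe_units_iff.1 hp
  have h4 : 24 ∣ Nat.card Fˣ := by
    rw [hpu.eq_orderOf]
    exact orderOf_dvd_natCard u
  rw [Nat.card_units, hcard] at h4
  have h5 := hq.two_le
  omega

theorem deg24 (K : Type) [Field K] [NumberField K] (N : ℕ) (R : ℝ) :
    ∃ S : Finset ℕ, (∀ q ∈ S, q.Prime ∧ N < q ∧ q % 24 = 1 ∧
      (∀ v : HeightOneSpectrum (𝓞 K), (q : 𝓞 K) ∈ v.asIdeal → (q : 𝓞 K) ∉ v.asIdeal ^ 2) ∧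
      ∃ v : HeightOneSpectrum (𝓞 K), (q : 𝓞 K) ∈ v.asIdeal ∧ Nat.card (𝓞 K ⧸ v.asIdeal) = q) ∧
      R ≤ ∑ q ∈ S, (1 : ℝ) / q := by
  classical
  let M : Type := CyclotomicField 24 K
  have : NumberField M := IsCyclotomicExtension.numberField {24} K M
  obtain ⟨B, hB⟩ := unram K
  obtain ⟨S, hS, hR⟩ := sum_inv M (max N (max 24 B)) R
  refine ⟨S, fun q hq => ?_, hR⟩
  obtain ⟨hqp, hqN, w, hqw, hcard⟩ := hS q hq
  have hN : N < q := lt_of_le_of_lt (le_max_left _ _) hqN
  have h24 : 24 < q := lt_of_le_of_lt ((le_max_left _ _).trans (le_max_right _ _)) hqN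
  have hBq : B < q := lt_of_le_of_lt ((le_max_right _ _).trans (le_max_right _ _)) hqN
  refine ⟨hqp, hN, ?_, hB q hqp hBq, ?_⟩
  · have : w.asIdeal.IsMaximal := w.isMaximal
    let _ : Field (𝓞 M ⧸ w.asIdeal) := Ideal.Quotient.field _
    have hz := IsCyclotomicExtension.zeta_spec 24 K M
    have hz' := hz.toInteger_isPrimitiveRoot
    have hr : (Polynomial.cyclotomic 24 (𝓞 M)).IsRoot hz.toInteger :=
      hz'.isRoot_cyclotomic (by norm_num)
    have hr' : (Polynomial.cyclotomic 24 (𝓞 M ⧸ w.asIdeal)).IsRoot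
        (Ideal.Quotient.mk w.asIdeal hz.toInteger) := by
      have := hr.map (f := Ideal.Quotient.mk w.asIdeal)
      rwa [Polynomial.map_cyclotomic] at this
    refine deg24_mod hqp h24 hcard ?_ hr'
    have : Ideal.Quotient.mk w.asIdeal (q : 𝓞 M) = 0 := Ideal.Quotient.eq_zero_iff_mem.2 hqw
    simpa using this
  · have hinj : Function.Injective (algebraMap (𝓞 K) (𝓞 M)) :=
      FaithfulSMul.algebraMap_injective _ _
    let I : Ideal (𝓞 K) := w.asIdeal.comap (algebraMap (𝓞 K) (𝓞 M))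
    have : I.IsPrime := Ideal.comap_isPrime _ _
    have hqI : (q : 𝓞 K) ∈ I := by
      rw [Ideal.mem_comap, map_natCast]
      exact hqw
    have hI0 : I ≠ ⊥ := by
      intro h
      rw [h, Ideal.mem_bot] at hqI
      exact hqp.ne_zero (by exact_mod_cast hqI)
    let v : HeightOneSpectrum (𝓞 K) := ⟨I, inferInstance, hI0⟩
    refine ⟨v, hqI, ?_⟩
    have hc0 : Nat.card (𝓞 M ⧸ w.asIdeal) ≠ 0 := by rw [hcard]; exact hqp.ne_zero
    have : Finite (𝓞 M ⧸ w.asIdeal) := Nat.finite_of_card_ne_zero hc0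
    have hqinj : Function.Injective
        (Ideal.quotientMap w.asIdeal (algebraMap (𝓞 K) (𝓞 M)) (le_refl I)) :=
      Ideal.quotientMap_injective' (le_refl _)
    have hle : Nat.card (𝓞 K ⧸ v.asIdeal) ≤ q := by
      rw [← hcard]
      exact Nat.card_le_card_of_injective _ hqinj
    have : Finite (𝓞 K ⧸ v.asIdeal) := Finite.of_injective _ hqinj
    have hge : q ≤ Nat.card (𝓞 K ⧸ v.asIdeal) := by
      have h1 := nq_absNorm_pow K hqp v hqI
      rw [nq_absNorm_card] at h1
      exact Nat.le_of_dvd Nat.card_pos h1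
    exact le_antisymm hle hge

end Pool.Agent.SS.DD
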