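import Pool.Agent.Work.MP_a5099b_nt.M.Main
import Pool.Agent.Work.MP_a5099b_nt.P2.Main
import Pool.Agent.Work.MP_a5099b_nt.C.EHas

/-!
# Module D4/Ord (M): `0, 1728, 8000` are ordinary modulo `q ≡ 1 mod 24`

Let `m = (q - 1) / 2`. `q` does not divide `Nat.choose m k` for `k ≤ m` (`choose m k ∣ m!`, `Nat.Prime.dvd_factorial`).
* `not_ss_zero`: by `SSj_all` (a = 0, b = 1) `Hasse q 0 1 = 0`; but it is the coefficient of `X ^ (q - 1)` in `(X ^ 3 + 1) ^ m = expand 3 ((X + 1) ^ m)`, i.e. `choose m ((q - 1) / 3)`.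
* `not_ss_1728`: a = 1, b = 0: `(X ^ 3 + X) ^ m = X ^ m * expand 2 ((X + 1) ^ m)`, the coefficient of `X ^ (2 m)` is `choose m (m / 2)` (`m` even).
* `not_ss_8000`: `PhiDiag 2 = -((X - 1728) * (X - 8000) * (X + 3375) ^ 2)` (`PhiAt_two_diag` for `x = X : ℤ[X]`, `PhiDiag_aeval`, `aeval_X_left`). Over `ZMod q` the multiplicity of `8000`
  is `1`: `8000 - 1728 = 2 ^ 7 * 7 ^ 2`, `8000 + 3375 = 5 ^ 3 * 7 * 13` are not divisible by `q` (`q ≥ 73`), `rootMultiplicity_mul`. If `8000` were supersingular then `MB.diag_even` with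
  `l = 2` (`8000 ≠ 0, 1728` in `ZMod q`; `-2` is a square modulo `q ≡ 1 mod 8`, `ZMod.exists_sq_eq_neg_two_iff`) would say that the multiplicity is even.
-/

set_option autoImplicit false

namespace Pool.Agent.SS.DD

open Polynomial

private theorem choose_ne {q : ℕ} [Fact q.Prime] (h5 : 5 ≤ q) {k : ℕ} (hk : k ≤ (q - 1) / 2) :
    ((Nat.choose ((q - 1) / 2) k : ℕ) : ZMod q) ≠ 0 := by
  have hq : q.Prime := Fact.out
  intro h
  have h1 := (ZMod.natCast_eq_zero_iff _ q).1 h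
  have h2 : q ∣ ((q - 1) / 2).factorial := by
    rw [← Nat.choose_mul_factorial_mul_factorial hk]
    exact Dvd.dvd.mul_right (Dvd.dvd.mul_right h1 _) _
  have h3 := (Nat.Prime.dvd_factorial hq).1 h2
  omega

private theorem cast_ne {q : ℕ} [Fact q.Prime] {n : ℕ} (h : ¬ q ∣ n) : (n : ZMod q) ≠ 0 :=
  fun h0 => h ((ZMod.natCast_eq_zero_iff _ q).1 h0)

theorem not_ss_zero {q : ℕ} [Fact q.Prime] (h5 : 5 ≤ q) (h3 : q % 3 = 1) :
    ¬ SSj q (0 : ZMod q) := by
  intro hss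
  have hq : q.Prime := Fact.out
  have h27 : ((27 : ℕ) : ZMod q) ≠ 0 := by
    apply cast_ne
    intro h
    have h1 : q ∣ 3 ^ 3 := h
    have h2 := (Nat.prime_dvd_prime_iff_eq hq Nat.prime_three).1 (hq.dvd_of_dvd_pow h1)
    omega
  have h1 := SSj_all hq h5 hss (a := 0) (b := 1) (by
    intro h
    apply h27
    push_cast
    linear_combination h) (by ring)
  have h2 : (X ^ 3 + C (0 : ZMod q) * X + C 1 : (ZMod q)[X]) ^ ((q - 1) / 2) =
      expand (ZMod q) 3 ((X + 1) ^ ((q - 1) / 2)) := by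
    rw [map_pow, map_add, expand_X, map_one]
    simp
  unfold Hasse at h1
  rw [h2, show q - 1 = (q - 1) / 3 * 3 by omega, coeff_expand_mul (by norm_num : 0 < 3),
    show (q - 1) / 3 * 3 / 2 = (q - 1) / 2 by omega, coeff_X_add_one_pow] at h1
  exact choose_ne h5 (by omega) h1

theorem not_ss_1728 {q : ℕ} [Fact q.Prime] (h5 : 5 ≤ q) (h4 : q % 4 = 1) :
    ¬ SSj q (1728 : ZMod q) := by
  intro hss
  have hq : q.Prime := Fact.out
  have h4' : ((4 : ℕ) : ZMod q) ≠ 0 := by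
    apply cast_ne
    intro h
    have := Nat.le_of_dvd (by norm_num) h
    omega
  have h1 := SSj_all hq h5 hss (a := 1) (b := 0) (by
    intro h
    apply h4'
    push_cast
    linear_combination h) (by ring)
  have h2 : (X ^ 3 + C (1 : ZMod q) * X + C 0 : (ZMod q)[X]) ^ ((q - 1) / 2) =
      X ^ ((q - 1) / 2) * expand (ZMod q) 2 ((X + 1) ^ ((q - 1) / 2)) := by
    rw [map_pow, map_add, expand_X, map_one, ← mul_pow]
    congr 1
    simp only [map_one, map_zero]
    ring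
  unfold Hasse at h1
  rw [h2] at h1
  have h3 : q - 1 = (q - 1) / 4 * 2 + (q - 1) / 2 := by omega
  rw [show (X ^ ((q - 1) / 2) * expand (ZMod q) 2 ((X + 1) ^ ((q - 1) / 2)) : (ZMod q)[X]).coeff
      (q - 1) = (X ^ ((q - 1) / 2) * expand (ZMod q) 2 ((X + 1) ^ ((q - 1) / 2)) :
      (ZMod q)[X]).coeff ((q - 1) / 4 * 2 + (q - 1) / 2) from congrArg _ h3,
    coeff_X_pow_mul, coeff_expand_mul (by norm_num : 0 < 2), coeff_X_add_one_pow] at h1
  exact choose_ne h5 (by omega) h1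

private theorem diag_two : PhiDiag 2 = -((X - 1728) * (X - 8000) * (X + 3375) ^ 2) := by
  have h := PhiDiag_aeval (n := 2) (X : ℤ[X])
  rw [PhiAt_two_diag, aeval_def] at h
  have h2 : ∀ f : ℤ →+* ℤ[X], eval₂ f X (PhiDiag 2) = PhiDiag 2 := by
    intro f
    rw [RingHom.ext_int f C, eval₂_C_X]
  exact (h2 _).symm.trans h

theorem not_ss_8000 {q : ℕ} [Fact q.Prime] (h24 : q % 24 = 1) :
    ¬ SSj q (8000 : ZMod q) := by
  intro hss
  have hq : q.Prime := Fact.out
  have h5 : 5 ≤ q := by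
    have := hq.one_lt
    omega
  have hne : ∀ p : ℕ, p.Prime → p < 24 → ¬ q ∣ p := by
    intro p hp hp24 h
    have h1 := (Nat.prime_dvd_prime_iff_eq hq hp).1 h
    have := hp.one_lt
    omega
  have n2 := hne 2 Nat.prime_two (by norm_num)
  have n5 := hne 5 Nat.prime_five (by norm_num)
  have n7 := hne 7 (by norm_num) (by norm_num)
  have n13 := hne 13 (by norm_num) (by norm_num)
  have c1 : ((8000 : ℕ) : ZMod q) ≠ 0 := by
    apply cast_ne
    rw [show (8000 : ℕ) = 2 ^ 6 * 5 ^ 3 by norm_num, hq.dvd_mul]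
    rintro (h | h)
    · exact n2 (hq.dvd_of_dvd_pow h)
    · exact n5 (hq.dvd_of_dvd_pow h)
  have c2 : ((6272 : ℕ) : ZMod q) ≠ 0 := by
    apply cast_ne
    rw [show (6272 : ℕ) = 2 ^ 7 * 7 ^ 2 by norm_num, hq.dvd_mul]
    rintro (h | h)
    · exact n2 (hq.dvd_of_dvd_pow h)
    · exact n7 (hq.dvd_of_dvd_pow h)
  have c3 : ((11375 : ℕ) : ZMod q) ≠ 0 := by
    apply cast_ne
    rw [show (11375 : ℕ) = 5 ^ 3 * 7 * 13 by norm_num, hq.dvd_mul, hq.dvd_mul]
    rintro ((h | h) | h)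
    · exact n5 (hq.dvd_of_dvd_pow h)
    · exact n7 h
    · exact n13 h
  have h0 : (8000 : ZMod q) ≠ 0 := by
    intro h
    apply c1
    push_cast
    exact h
  have h1 : (8000 : ZMod q) ≠ 1728 := by
    intro h
    apply c2
    push_cast
    linear_combination h
  obtain ⟨e, he⟩ : ∃ e : ℤ, (q : ℤ) ∣ e ^ 2 + (2 : ℕ) := by
    obtain ⟨r, hr⟩ := (ZMod.exists_sq_eq_neg_two_iff (p := q) (by omega)).2 (Or.inl (by omega))
    refine ⟨(r.val : ℤ), (ZMod.intCast_zmod_eq_zero_iff_dvd _ q).1 ?_⟩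
    push_cast
    rw [ZMod.natCast_val, ZMod.cast_id]
    linear_combination -hr
  have hev := MB.diag_even h5 Nat.prime_two (by omega) (8000 : ZMod q) hss h0 h1 he
  have hf : (PhiDiag 2).map (Int.castRingHom (ZMod q)) =
      (X - C 8000) * (-((X - C 1728) * (X + C 3375) ^ 2)) := by
    rw [diag_two]
    simp only [Polynomial.map_neg, Polynomial.map_mul, Polynomial.map_sub, Polynomial.map_add,
      Polynomial.map_pow, map_X, Polynomial.map_ofNat, map_ofNat]
    ring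
  have hg : ¬ IsRoot (-((X - C 1728) * (X + C 3375) ^ 2) : (ZMod q)[X]) 8000 := by
    rw [IsRoot, eval_neg, eval_mul, eval_pow, eval_sub, eval_add, eval_X, eval_C, eval_C, neg_eq_zero]
    refine mul_ne_zero (sub_ne_zero.2 h1) (pow_ne_zero _ ?_)
    intro h
    apply c3
    push_cast
    linear_combination h
  have hm : ((PhiDiag 2).map (Int.castRingHom (ZMod q))).rootMultiplicity 8000 = 1 := by
    rw [hf, rootMultiplicity_mul, rootMultiplicity_X_sub_C_self, rootMultiplicity_eq_zero hg]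
    intro h
    rcases mul_eq_zero.1 h with h | h
    · exact X_sub_C_ne_zero _ h
    · apply hg
      rw [h]
      simp
  rw [hm] at hev
  exact absurd hev (by decide)

end Pool.Agent.SS.DD
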