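import Mathlib

/-!
# Module D4/Box (S-M): points of a box in given residue classes

PROOF. The set is the union over `u ∈ U` of the boxes `∏_i {x : |x| ≤ T, x ≡ u_i mod m}`, and one factor has at most `(2T+1)/m + 1` elements
(the `x ≡ u mod m` in an interval of `2T+1` consecutive integers: `Int.Ico_filter_modEq_card` or: `x ↦ (x + T) / m` is injective on it with values in `{0, …, 2T/m}`, so at most
`2T/m + 1`). Count functions by `Fintype.card_pi`/`Finset.card_pi` (`Fintype.piFinset`).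
-/

set_option autoImplicit false

namespace Pool.Agent.SS.DD

theorem box_finite (ι : Type) [Fintype ι] (T : ℕ) : {z : ι → ℤ | ∀ i, |z i| ≤ (T : ℤ)}.Finite := by
  have h : {z : ι → ℤ | ∀ i, |z i| ≤ (T : ℤ)} = Set.pi Set.univ fun _ => Set.Icc (-(T : ℤ)) T := by
    ext z
    simp only [Set.mem_ofPred_eq, Set.mem_pi, Set.mem_univ, true_implies, Set.mem_Icc, abs_le]
  rw [h]
  exact Set.Finite.pi fun _ => Set.finite_Icc _ _

theorem box_card (ι : Type) [Fintype ι] (T : ℕ) :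
    {z : ι → ℤ | ∀ i, |z i| ≤ (T : ℤ)}.ncard = (2 * T + 1) ^ Fintype.card ι := by
  classical
  have h : {z : ι → ℤ | ∀ i, |z i| ≤ (T : ℤ)} =
      ((Fintype.piFinset fun _ : ι => Finset.Icc (-(T : ℤ)) T : Finset (ι → ℤ)) :
        Set (ι → ℤ)) := by
    ext z
    simp only [Set.mem_ofPred_eq, Finset.mem_coe, Fintype.mem_piFinset, Finset.mem_Icc, abs_le]
  rw [h, Set.ncard_coe_finset, Fintype.card_piFinset, Finset.prod_const, Int.card_Icc,
    Finset.card_univ]
  congr 1
  omega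

private theorem box_line (m : ℕ) (hm : 0 < m) (T : ℕ) (u : ZMod m) :
    ((Finset.Icc (-(T : ℤ)) T).filter fun x : ℤ => (x : ZMod m) = u).card ≤ 2 * T / m + 1 := by
  classical
  have hinj : Set.InjOn (fun x : ℤ => ((x + T) / m).toNat)
      ((Finset.Icc (-(T : ℤ)) T).filter fun x : ℤ => (x : ZMod m) = u : Finset ℤ) := by
    intro x hx y hy hxy
    rw [Finset.mem_coe, Finset.mem_filter, Finset.mem_Icc] at hx hy
    have hm0 : (0 : ℤ) < m := by exact_mod_cast hm
    have e1 : (0 : ℤ) ≤ (x + T) / m := Int.ediv_nonneg (by omega) hm0.le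
    have e2 : (0 : ℤ) ≤ (y + T) / m := Int.ediv_nonneg (by omega) hm0.le
    have hq : (x + T) / m = (y + T) / m := by
      have h1 : (((x + T) / m).toNat : ℤ) = (((y + T) / m).toNat : ℤ) := by
        exact_mod_cast hxy
      rwa [Int.toNat_of_nonneg e1, Int.toNat_of_nonneg e2] at h1
    have hc : (x : ZMod m) = (y : ZMod m) := hx.2.trans hy.2.symm
    rw [ZMod.intCast_eq_intCast_iff] at hc
    have hc2 : (x + T) % m = (y + T) % m := (hc.add_right (T : ℤ))
    have h3 := Int.mul_ediv_add_emod (x + T) m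
    have h4 := Int.mul_ediv_add_emod (y + T) m
    rw [hq, hc2] at h3
    omega
  have hmap : ∀ x ∈ (Finset.Icc (-(T : ℤ)) T).filter fun x : ℤ => (x : ZMod m) = u,
      ((x + T) / m).toNat ∈ Finset.range (2 * T / m + 1) := by
    intro x hx
    rw [Finset.mem_filter, Finset.mem_Icc] at hx
    have hm0 : (0 : ℤ) < m := by exact_mod_cast hm
    have e1 : (0 : ℤ) ≤ (x + T) / m := Int.ediv_nonneg (by omega) hm0.le
    have e3 : (x + T) / m ≤ (2 * T : ℤ) / m := Int.ediv_le_ediv hm0 (by omega)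
    rw [Finset.mem_range]
    have e4 : ((2 * T / m : ℕ) : ℤ) = (2 * T : ℤ) / m := by push_cast; rfl
    omega
  have h5 := Finset.card_le_card_of_injOn _ hmap hinj
  rwa [Finset.card_range] at h5

theorem box_class (ι : Type) [Fintype ι] (m : ℕ) (hm : 0 < m) (U : Set (ι → ZMod m)) (T : ℕ) :
    ({z : ι → ℤ | (∀ i, |z i| ≤ (T : ℤ)) ∧ (fun i => (z i : ZMod m)) ∈ U}.ncard : ℝ) ≤
      (U.ncard : ℝ) * ((2 * T + 1 : ℝ) / m + 1) ^ Fintype.card ι := by
  classical
  have : NeZero m := ⟨hm.ne'⟩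
  have hU : U.Finite := Set.toFinite U
  set B : (ι → ZMod m) → Finset (ι → ℤ) := fun u =>
    Fintype.piFinset fun i => (Finset.Icc (-(T : ℤ)) T).filter fun x : ℤ => (x : ZMod m) = u i with hB
  have hsub : {z : ι → ℤ | (∀ i, |z i| ≤ (T : ℤ)) ∧ (fun i => (z i : ZMod m)) ∈ U} ⊆
      ((hU.toFinset.biUnion B : Finset (ι → ℤ)) : Set (ι → ℤ)) := by
    rintro z ⟨h1, h2⟩
    rw [Finset.mem_coe, Finset.mem_biUnion]
    refine ⟨_, hU.mem_toFinset.2 h2, ?_⟩
    rw [hB, Fintype.mem_piFinset]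
    intro i
    rw [Finset.mem_filter, Finset.mem_Icc]
    exact ⟨abs_le.1 (h1 i), rfl⟩
  have h1 : {z : ι → ℤ | (∀ i, |z i| ≤ (T : ℤ)) ∧ (fun i => (z i : ZMod m)) ∈ U}.ncard ≤
      hU.toFinset.card * (2 * T / m + 1) ^ Fintype.card ι := by
    refine (Set.ncard_le_ncard hsub (Finset.finite_toSet _)).trans ?_
    rw [Set.ncard_coe_finset]
    refine Finset.card_biUnion_le_card_mul _ _ _ ?_
    intro u _
    rw [hB, Fintype.card_piFinset]
    refine (Finset.prod_le_prod' fun i _ => box_line m hm T (u i)).trans ?_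
    rw [Finset.prod_const, Finset.card_univ]
  have h2 : ((2 * T / m : ℕ) : ℝ) ≤ (2 * T + 1 : ℝ) / m := by
    refine Nat.cast_div_le.trans ?_
    push_cast
    gcongr
    linarith
  rw [Set.ncard_eq_toFinset_card U hU]
  calc (_ : ℝ) ≤ ((hU.toFinset.card * (2 * T / m + 1) ^ Fintype.card ι : ℕ) : ℝ) := by
        exact_mod_cast h1
    _ = (hU.toFinset.card : ℝ) * (((2 * T / m : ℕ) : ℝ) + 1) ^ Fintype.card ι := by push_cast; ring
    _ ≤ _ := by gcongr

end Pool.Agent.SS.DD
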