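import Mathlib
import Pool.Agent.Work.MP_a5099b_nt.D4.Box
import Pool.Agent.Work.MP_a5099b_nt.D4.Crt

/-!
# Module D4/Dens (M): the density of the points avoiding residue classes modulo infinitely many primes is zero

PROOF. Let `ε > 0`, `d = Fintype.card ι`. Choose `R` with `exp (-c R) < ε`, `S` by `hP`, `m = ∏ q ∈ S, q` (positive), `U` by `crt_avoid`: `U.ncard ≤ ∏ (q ^ d - (c / q) q ^ d) =
m ^ d ∏ (1 - c / q) ≤ m ^ d exp (-c R)` (`Real.one_sub_le_exp_neg`/`Real.add_one_le_exp`; the factors are `≥ 0`: `0 ≤ q ^ d - ncard`, as `(G q).ncard ≤ q ^ d`). By `box_class` the number in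
question is at most `U.ncard ((2T+1)/m + 1) ^ d = (U.ncard / m ^ d) (2T + 1 + m) ^ d`, so divided by `(2T+1) ^ d` it is at most `exp (-c R) ((2T+1+m)/(2T+1)) ^ d → exp (-c R) < ε`.
So it is eventually `< ε` (and it is `≥ 0`).
-/

set_option autoImplicit false

namespace Pool.Agent.SS.DD

open Finset Filter Topology

private theorem ncard_le_pow (ι : Type) [Fintype ι] (q : ℕ) (hq : q.Prime) (G : Set (ι → ZMod q)) :
    (G.ncard : ℝ) ≤ (q : ℝ) ^ Fintype.card ι := by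
  classical
  have : Fact q.Prime := ⟨hq⟩
  have : NeZero q := ⟨hq.ne_zero⟩
  have h := Set.ncard_le_ncard (Set.subset_univ G) (Set.toFinite _)
  rw [Set.ncard_univ, Nat.card_eq_fintype_card, Fintype.card_fun, ZMod.card] at h
  exact_mod_cast h

theorem density_zero (ι : Type) [Fintype ι] (E : Set (ι → ℤ)) (c : ℝ) (hc : 0 < c)
    (P : ℕ → Prop) (G : ∀ q : ℕ, Set (ι → ZMod q))
    (hP : ∀ R : ℝ, ∃ S : Finset ℕ, (∀ q ∈ S, q.Prime ∧ P q) ∧ R ≤ ∑ q ∈ S, (1 : ℝ) / q)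
    (hG : ∀ q : ℕ, q.Prime → P q → c / q * (q : ℝ) ^ Fintype.card ι ≤ ((G q).ncard : ℝ))
    (hE : ∀ q : ℕ, q.Prime → P q → ∀ z ∈ E, (fun i => (z i : ZMod q)) ∉ G q) :
    Tendsto (fun T : ℕ => ({z : ι → ℤ | (∀ i, |z i| ≤ (T : ℤ)) ∧ z ∈ E}.ncard : ℝ) /
      (2 * (T : ℝ) + 1) ^ Fintype.card ι) atTop (𝓝 0) := by
  classical
  rw [tendsto_order]
  refine ⟨fun a ha => Eventually.of_forall fun T => lt_of_lt_of_le ha (by positivity),
    fun ε hε => ?_⟩
  obtain ⟨R, hR⟩ : ∃ R : ℝ, Real.exp (-(c * R)) < ε := by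
    refine ⟨(1 - Real.log ε) / c, ?_⟩
    have h0 : -(c * ((1 - Real.log ε) / c)) = Real.log ε - 1 := by field_simp; ring
    rw [h0, Real.exp_sub, Real.exp_log hε]
    rw [div_lt_iff₀ (Real.exp_pos 1)]
    nlinarith [Real.add_one_lt_exp (one_ne_zero : (1 : ℝ) ≠ 0)]
  obtain ⟨S, hS, hSR⟩ := hP R
  obtain ⟨U, hU, hUz⟩ := crt_avoid ι S (fun q hq => (hS q hq).1) G
  have hm0 : 0 < ∏ q ∈ S, q := Finset.prod_pos fun q hq => (hS q hq).1.pos
  have hmc : ((∏ q ∈ S, q : ℕ) : ℝ) = ∏ q ∈ S, (q : ℝ) := by push_cast; rfl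
  generalize hm : (∏ q ∈ S, q) = m at U hU hUz hm0 hmc
  have hmR : (0 : ℝ) < m := by exact_mod_cast hm0
  have hUle : (U.ncard : ℝ) ≤ (m : ℝ) ^ Fintype.card ι * Real.exp (-(c * R)) := by
    rw [hU]
    calc ∏ q ∈ S, ((q : ℝ) ^ Fintype.card ι - ((G q).ncard : ℝ))
        ≤ ∏ q ∈ S, ((q : ℝ) ^ Fintype.card ι * Real.exp (-(c / q))) := by
          refine Finset.prod_le_prod (fun q hq => ?_) (fun q hq => ?_)
          · exact sub_nonneg.2 (ncard_le_pow ι q (hS q hq).1 (G q))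
          · have h1 := hG q (hS q hq).1 (hS q hq).2
            have h2 : 1 - c / q ≤ Real.exp (-(c / q)) := by
              have := Real.add_one_le_exp (-(c / (q : ℝ)))
              linarith
            have h3 : (0 : ℝ) ≤ (q : ℝ) ^ Fintype.card ι := by positivity
            nlinarith [mul_le_mul_of_nonneg_left h2 h3]
      _ = (m : ℝ) ^ Fintype.card ι * Real.exp (-(c * ∑ q ∈ S, (1 : ℝ) / q)) := by
          rw [Finset.prod_mul_distrib, ← Real.exp_sum, Finset.prod_pow, hmc]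
          congr 2
          rw [Finset.mul_sum, ← Finset.sum_neg_distrib]
          refine Finset.sum_congr rfl fun q _ => by ring
      _ ≤ _ := by
          refine mul_le_mul_of_nonneg_left (Real.exp_le_exp.2 ?_) (by positivity)
          have := mul_le_mul_of_nonneg_left hSR hc.le
          linarith
  have hlim : Tendsto (fun T : ℕ => Real.exp (-(c * R)) *
      (1 + (m : ℝ) / (2 * (T : ℝ) + 1)) ^ Fintype.card ι) atTop
      (𝓝 (Real.exp (-(c * R)) * (1 + 0) ^ Fintype.card ι)) := by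
    refine Tendsto.const_mul _ (Tendsto.pow (Tendsto.const_add _ ?_) _)
    refine Tendsto.div_atTop tendsto_const_nhds ?_
    refine tendsto_atTop_add_const_right _ _ ?_
    exact Tendsto.const_mul_atTop (by norm_num) tendsto_natCast_atTop_atTop
  rw [add_zero, one_pow, mul_one] at hlim
  filter_upwards [hlim.eventually (Iio_mem_nhds hR)] with T hT
  refine lt_of_le_of_lt ?_ hT
  have hpos : (0 : ℝ) < 2 * (T : ℝ) + 1 := by positivity
  rw [div_le_iff₀ (by positivity)]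
  have hsub : {z : ι → ℤ | (∀ i, |z i| ≤ (T : ℤ)) ∧ z ∈ E} ⊆
      {z : ι → ℤ | (∀ i, |z i| ≤ (T : ℤ)) ∧ (fun i => (z i : ZMod m)) ∈ U} := by
    rintro z ⟨hz, hzE⟩
    exact ⟨hz, hUz z fun q hq => hE q (hS q hq).1 (hS q hq).2 z hzE⟩
  have hfin : ({z : ι → ℤ | (∀ i, |z i| ≤ (T : ℤ)) ∧
      (fun i => (z i : ZMod m)) ∈ U}).Finite :=
    (box_finite ι T).subset fun z hz => hz.1
  have h1 : ({z : ι → ℤ | (∀ i, |z i| ≤ (T : ℤ)) ∧ z ∈ E}.ncard : ℝ) ≤
      ({z : ι → ℤ | (∀ i, |z i| ≤ (T : ℤ)) ∧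
        (fun i => (z i : ZMod m)) ∈ U}.ncard : ℝ) := by
    exact_mod_cast Set.ncard_le_ncard hsub hfin
  refine h1.trans ((box_class ι m hm0 U T).trans ?_)
  calc (U.ncard : ℝ) * ((2 * T + 1 : ℝ) / m + 1) ^ Fintype.card ι
      ≤ ((m : ℝ) ^ Fintype.card ι * Real.exp (-(c * R))) *
          ((2 * T + 1 : ℝ) / m + 1) ^ Fintype.card ι :=
        mul_le_mul_of_nonneg_right hUle (by positivity)
    _ = Real.exp (-(c * R)) * (m * ((2 * T + 1 : ℝ) / m + 1)) ^ Fintype.card ι := by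
        rw [mul_pow]; ring
    _ = Real.exp (-(c * R)) * (1 + (m : ℝ) / (2 * (T : ℝ) + 1)) ^ Fintype.card ι *
          (2 * (T : ℝ) + 1) ^ Fintype.card ι := by
        rw [mul_assoc, ← mul_pow]
        congr 2
        field_simp

end Pool.Agent.SS.DD
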