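import Pool.Agent.Work.MP_a5099b_nt.SpecB
import Pool.Agent.Work.MP_a5099b_nt.C.EHas
import Pool.Agent.Work.MP_a5099b_nt.C.MPl
import Pool.Agent.Work.MP_a5099b_nt.C.MSs
import Pool.Agent.Work.MP_a5099b_nt.C.MRam
import Pool.Agent.Work.MP_a5099b_nt.C.MHH
import Pool.Agent.Work.MP_a5099b_nt.H.HDefs
import Pool.Agent.Work.MP_a5099b_nt.H.Diag

/-!
# Module D4/ExSS (M): there is a supersingular invariant in the prime field

`τ = √-q ∈ ℍ` (`sq q`, `HB.sq_im`), `L₀ = tauLat τ = ℤ + ℤ √-q`; `HasSq q L₀` (`sq q * (a + b * sq q) = -(q b) + a * sq q`). `r = jL L₀` is a root of `PhiDiag q`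
(`HB.diag_of_hasSq`), `-PhiDiag q` is monic (`PhiDiag_leadingCoeff`). `K = AlgebraicClosure (ZMod q)`, `P : Pl K` (`exists_Pl` for `A = (Int.castRingHom ℂ).range`, copy the
private `mhh_pl` of `C/MHH.lean`); `r` is integral over `ℤ`, so `r ∈ P.B` (`P.cl`). As in `exists_HH` (`C/MHH.lean`, copy): `m ^ 12 = dl L₀`, `L = m • L₀`, `dl L = 1`, `jL L = r`,
`e4 L ^ 3 = r`, `e6 L ^ 2 = e4 L ^ 3 - 1728`, so `e4 L, e6 L ∈ P.B`; `HasSq q L`. `ev_ram` (`C/MRam`) gives `P.ev (hL q L) = 0`, so `z = P.ev r` is supersingular (`SSj_iff_ev`).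
`z` is in the prime field: `(PhiAt q z).eval z = 0` (image of the relation for `r`, `PhiDiag_aeval`) and `kron_at` with `(q : K) = 0` give `(z ^ q - z) * (z - z ^ q) = 0`, so
`z ^ q = z`, so `z` is the image of some `y : ZMod q` (`X ^ q - X = ∏ (X - a)` over the prime field: `FiniteField.prod_X_sub_C_eq`-type lemma). `SSj_map`.
-/

set_option autoImplicit false

namespace Pool.Agent.SS.DD

open Polynomial
open Pool.Agent.Work.CM
open scoped Pointwise

private theorem ex_smul {l : ℕ} {L : Submodule ℤ ℂ} (h : HasSq l L) (m : ℂ) :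
    HasSq l (m • L) := by
  intro z hz
  obtain ⟨w, hw, rfl⟩ := Submodule.mem_smul_pointwise_iff_exists z m L |>.1 hz
  rw [smul_eq_mul, show sq l * (m * w) = m • (sq l * w) by rw [smul_eq_mul]; ring]
  exact Submodule.smul_mem_pointwise_smul _ m L (h w hw)

private theorem ex_pl (K : Type) [Field K] [IsAlgClosed K] : Nonempty (Pl K) := by
  let e : ℤ ≃+* (Int.castRingHom ℂ).range :=
    RingEquiv.ofBijective (Int.castRingHom ℂ).rangeRestrict
      ⟨fun a b h => by
        have h1 := congrArg (fun x : (Int.castRingHom ℂ).range => (x : ℂ)) h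
        exact Int.cast_injective (α := ℂ) h1,
      RingHom.rangeRestrict_surjective _⟩
  obtain ⟨P, -⟩ := exists_Pl (K := K) (Int.castRingHom ℂ).range
    ((Int.castRingHom K).comp e.symm.toRingHom)
  exact ⟨P⟩

private theorem ex_lat {q : ℕ} (hq : 0 < q) : ∃ L : Submodule ℤ ℂ, IsLat L ∧ HasSq q L := by
  have him : 0 < (sq q).im := by
    rw [HB.sq_im]
    exact Real.sqrt_pos.2 (by exact_mod_cast hq)
  let τ : UpperHalfPlane := ⟨sq q, him⟩
  have hτ : (τ : ℂ) = sq q := rfl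
  refine ⟨tauLat τ, tauLat_isLat τ, ?_⟩
  intro z hz
  unfold tauLat at hz ⊢
  rw [Submodule.mem_span_pair] at hz ⊢
  obtain ⟨a, b, rfl⟩ := hz
  refine ⟨b, -(q : ℤ) * a, ?_⟩
  rw [hτ]
  simp only [zsmul_eq_mul]
  push_cast
  linear_combination (-(a : ℂ)) * HB.sq_mul_self q

private theorem ex_fix {q : ℕ} [Fact q.Prime] {K : Type} [Field K] [Algebra (ZMod q) K] {z : K}
    (hz : z ^ q = z) : ∃ y : ZMod q, algebraMap (ZMod q) K y = z := by
  classical
  by_contra hno
  push Not at hno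
  have hq : q.Prime := Fact.out
  have h1 : (X ^ q - X : K[X]) ≠ 0 := FiniteField.X_pow_card_sub_X_ne_zero K hq.one_lt
  have h2 : (X ^ q - X : K[X]).natDegree = q := FiniteField.X_pow_card_sub_X_natDegree_eq K hq.one_lt
  set S : Finset K := (Finset.univ : Finset (ZMod q)).image (algebraMap (ZMod q) K) with hS
  have h3 : S.card = q := by
    rw [hS, Finset.card_image_of_injective _ (algebraMap (ZMod q) K).injective, Finset.card_univ,
      ZMod.card]
  have h4 : z ∉ S := by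
    intro h
    rw [hS, Finset.mem_image] at h
    obtain ⟨y, -, hy⟩ := h
    exact hno y hy
  have h5 : insert z S ⊆ (X ^ q - X : K[X]).roots.toFinset := by
    intro x hx
    rw [Multiset.mem_toFinset, mem_roots h1, IsRoot, eval_sub, eval_pow, eval_X, sub_eq_zero]
    rcases Finset.mem_insert.1 hx with rfl | hx
    · exact hz
    · rw [hS, Finset.mem_image] at hx
      obtain ⟨y, -, rfl⟩ := hx
      rw [← map_pow, ZMod.pow_card]
  have h6 := Finset.card_le_card h5
  rw [Finset.card_insert_of_notMem h4, h3] at h6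
  have h7 := (Multiset.toFinset_card_le (X ^ q - X : K[X]).roots).trans (card_roots' _)
  omega

private theorem ex_frob {q : ℕ} (hq : q.Prime) {K : Type} [Field K] [CharP K q] {P : Pl K}
    {r : ℂ} (hrel : aeval r (PhiDiag q) = 0) (hrB : r ∈ P.B) : P.ev r ^ q = P.ev r := by
  have hz : aeval (P.ev r) (PhiDiag q) = 0 := by
    have h1 : aeval (⟨r, hrB⟩ : P.B) (PhiDiag q) = 0 := by
      apply Subtype.val_injective
      have h2 := Polynomial.aeval_algebraMap_apply ℂ (⟨r, hrB⟩ : P.B) (PhiDiag q)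
      have h3 : algebraMap P.B ℂ (⟨r, hrB⟩ : P.B) = r := rfl
      rw [h3, hrel] at h2
      exact h2.symm
    rw [Pl.ev_eq hrB]
    have h2 := Polynomial.hom_eval₂ (PhiDiag q) (algebraMap ℤ P.B) P.φ ⟨r, hrB⟩
    rw [← aeval_def, h1, map_zero] at h2
    rw [aeval_def, h2]
    congr 1
    exact RingHom.ext_int _ _
  rw [PhiDiag_aeval, kron_at hq, CharP.cast_eq_zero K q, zero_mul, add_zero] at hz
  have h1 : (P.ev r ^ q - P.ev r) * (P.ev r ^ q - P.ev r) = 0 := by
    linear_combination -hz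
  exact sub_eq_zero.1 (mul_self_eq_zero.1 h1)

theorem exists_ss {q : ℕ} [Fact q.Prime] (h5 : 5 ≤ q) : ∃ y : ZMod q, SSj q y := by
  have hq : q.Prime := Fact.out
  let K := AlgebraicClosure (ZMod q)
  have hchar : CharP K q := charP_of_injective_algebraMap (algebraMap (ZMod q) K).injective q
  obtain ⟨P⟩ := ex_pl K
  obtain ⟨L₀, hL₀, hs⟩ := ex_lat hq.pos
  set r : ℂ := jL L₀ with hr
  have hrel : aeval r (PhiDiag q) = 0 := HB.diag_of_hasSq hq hL₀ hs
  have hrint : IsIntegral ℤ r := by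
    refine ⟨-PhiDiag q, ?_, ?_⟩
    · rw [Monic, leadingCoeff_neg, PhiDiag_leadingCoeff hq, neg_neg]
    · rw [← aeval_def, map_neg, hrel, neg_zero]
  have hrB : r ∈ P.B := P.cl _ hrint.tower_top
  obtain ⟨m, hm⟩ : ∃ m : ℂ, m ^ 12 = dl L₀ := by
    obtain ⟨m, hm⟩ := IsAlgClosed.exists_pow_nat_eq (dl L₀) (n := 12) (by norm_num)
    exact ⟨m, hm⟩
  have hm0 : m ≠ 0 := by
    rintro rfl
    exact dl_ne_zero hL₀ (by rw [← hm]; norm_num)
  have hd : dl (m • L₀) = 1 := by
    have h1 := Wt_dl L₀ hL₀ m hm0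
    rw [zpow_ofNat, hm] at h1
    exact mul_left_cancel₀ (dl_ne_zero hL₀) (by rw [h1, mul_one])
  have hj' : jL (m • L₀) = r := by rw [jL_smul hL₀ hm0]
  have h4 : e4 (m • L₀) ^ 3 = r := by
    have h1 := jL_eq (m • L₀)
    rw [hd, div_one, hj'] at h1
    exact h1.symm
  have h4B : e4 (m • L₀) ∈ P.B := by
    apply P.cl
    refine IsIntegral.of_pow (n := 3) (by norm_num) ?_
    rw [h4]
    exact isIntegral_algebraMap (R := P.B) (x := ⟨r, hrB⟩)
  have h6 : e6 (m • L₀) ^ 2 = e4 (m • L₀) ^ 3 - 1728 := by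
    have h1 := hd
    unfold dl at h1
    rw [div_eq_iff (by norm_num)] at h1
    linear_combination -h1
  have h6B : e6 (m • L₀) ∈ P.B := by
    apply P.cl
    refine IsIntegral.of_pow (n := 2) (by norm_num) ?_
    rw [h6, h4]
    have h1 : r - 1728 ∈ P.B := by
      refine sub_mem hrB ?_
      have := natCast_mem P.B 1728
      exact_mod_cast this
    exact isIntegral_algebraMap (R := P.B) (x := ⟨r - 1728, h1⟩)
  have hev : P.ev (hL q (m • L₀)) = 0 := ev_ram hq h5 (hL₀.smul hm0) (ex_smul hs m) h4B h6B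
  have hdne : P.ev (dl (m • L₀)) ≠ 0 := by
    rw [hd, Pl.ev_one]
    exact one_ne_zero
  have hss : SSj q (P.ev r) := by
    have h1 := (SSj_iff_ev (P := P) hq h5 h4B h6B hdne).2 hev
    rwa [hj'] at h1
  have hfix : P.ev r ^ q = P.ev r := ex_frob hq hrel hrB
  obtain ⟨y, hy⟩ := ex_fix (q := q) hfix
  refine ⟨y, ?_⟩
  rw [← hy] at hss
  exact (SSj_map hq h5 (algebraMap (ZMod q) K) y).1 hss

end Pool.Agent.SS.DD
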