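import Pool.Agent.Work.MP_a5099b_nt.J.Main3
import Pool.Agent.Work.MP_a5099b_nt.D4.Deg24
import Pool.Agent.Work.MP_a5099b_nt.D4.LocG
import Pool.Agent.Work.MP_a5099b_nt.D4.DensU
import Pool.Agent.Work.MP_a5099b_nt.D4.Dens
import Pool.Agent.Work.MP_a5099b_nt.D4.ExSS
import Pool.Agent.Work.MP_a5099b_nt.D4.Ord

/-!
# Module D4/Main (helper97): density one, assembly.
-/

set_option autoImplicit false

namespace Pool.Agent.SS.DD

open NumberField IsDedekindDomain Filter Topology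

/-- The curve with one supersingular place of degree one above `q`. -/
theorem criterion {K : Type} [Field K] [NumberField K] [IsTotallyComplex K]
    {q : ℕ} [hq : Fact q.Prime] (h24 : q % 24 = 1)
    (hur : ∀ v : HeightOneSpectrum (𝓞 K), (q : 𝓞 K) ∈ v.asIdeal → (q : 𝓞 K) ∉ v.asIdeal ^ 2)
    (W : WeierstrassCurve (𝓞 K)) (hW : W.Δ ≠ 0) (v1 : HeightOneSpectrum (𝓞 K))
    (hS : Sig q W = {v1}) (y : ℤ) (hss : SSj q (y : ZMod q))
    (hJ : ∀ n : ℤ, JMod W v1 n → (n : ZMod q) = (y : ZMod q)) :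
    {v : HeightOneSpectrum (𝓞 K) | SSRed W v}.Infinite := by
  have h2 : 2 ≤ q := hq.out.two_le
  have h7 : 7 ≤ q := by omega
  have hno : ∀ n : ℤ, ¬ SSj q (n : ZMod q) → ¬ JMod W v1 n := by
    intro n hn h
    rw [hJ n h] at hn
    exact hn hss
  refine J.inf_of_odd W hW hq.out h7 ?_ ?_ ?_ ?_
  · intro v hv
    exact hur v hv.1
  · intro v hv
    rw [hS, Set.mem_singleton_iff] at hv
    subst hv
    refine ⟨hno 0 ?_, hno 1728 ?_⟩
    · have := not_ss_zero (q := q) (by omega) (by omega)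
      simpa using this
    · have := not_ss_1728 (q := q) (by omega) (by omega)
      simpa using this
  · intro _ v hv
    rw [hS, Set.mem_singleton_iff] at hv
    subst hv
    refine hno 8000 ?_
    have := not_ss_8000 (q := q) h24
    simpa using this
  · rw [hS, Set.ncard_singleton]
    exact odd_one

/-- The primes used. -/
def PP (K : Type) [Field K] [NumberField K] (q : ℕ) : Prop :=
  q % 24 = 1 ∧
  (∀ v : HeightOneSpectrum (𝓞 K), (q : 𝓞 K) ∈ v.asIdeal → (q : 𝓞 K) ∉ v.asIdeal ^ 2) ∧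
  ∃ v : HeightOneSpectrum (𝓞 K), (q : 𝓞 K) ∈ v.asIdeal ∧ Nat.card (𝓞 K ⧸ v.asIdeal) = q

/-- The exceptional coordinate vectors. -/
def Exc {K : Type} [Field K] [NumberField K] {ι : Type} [Fintype ι] (b : Module.Basis ι ℤ (𝓞 K)) :
    Set (ι ⊕ ι → ℤ) :=
  {z | ¬ ((cur (∑ i, z (Sum.inl i) • b i) (∑ i, z (Sum.inr i) • b i)).Δ ≠ 0 ∧
    {v : HeightOneSpectrum (𝓞 K) |
      SSRed (cur (∑ i, z (Sum.inl i) • b i) (∑ i, z (Sum.inr i) • b i)) v}.Infinite)}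

theorem exists_Gq {K : Type} [Field K] [NumberField K] [IsTotallyComplex K] {ι : Type} [Fintype ι]
    (b : Module.Basis ι ℤ (𝓞 K)) (q : ℕ) :
    ∃ G : Set (ι ⊕ ι → ZMod q), q.Prime → PP K q →
      (1 / 2 ^ Module.finrank ℚ K : ℝ) / q * (q : ℝ) ^ Fintype.card (ι ⊕ ι) ≤ (G.ncard : ℝ) ∧
      ∀ z ∈ Exc b, (fun i => (z i : ZMod q)) ∉ G := by
  by_cases hq : q.Prime
  swap
  · exact ⟨∅, fun h => absurd h hq⟩
  by_cases hP : PP K q
  swap
  · exact ⟨∅, fun _ h => absurd h hP⟩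
  have : Fact q.Prime := ⟨hq⟩
  obtain ⟨h24, hur, v1, hq1, hc1⟩ := hP
  have h2 := hq.two_le
  obtain ⟨y', hy'⟩ := exists_ss (q := q) (by omega)
  obtain ⟨y, rfl⟩ : ∃ y : ℤ, (y : ZMod q) = y' := ⟨(y'.val : ℤ), by simp⟩
  have h0 : (y : ZMod q) ≠ 0 := by
    intro h
    rw [h] at hy'
    exact not_ss_zero (by omega) (by omega) hy'
  have h1 : (y : ZMod q) ≠ 1728 := by
    intro h
    rw [h] at hy'
    exact not_ss_1728 (by omega) (by omega) hy'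
  obtain ⟨G, hG, hGz⟩ := exists_G b (by omega : 17 ≤ q) hur v1 hq1 hc1 y hy' h0 h1
  refine ⟨G, fun _ _ => ⟨hG, fun z hz hzG => hz ?_⟩⟩
  obtain ⟨hΔ, hS, hJ⟩ := hGz z hzG
  exact ⟨hΔ, criterion h24 hur _ hΔ v1 hS y hy' hJ⟩

/-- Uniform form: all boxes with long sides. -/
theorem main_uniform (K : Type) [Field K] [NumberField K] [IsTotallyComplex K] {ι : Type}
    [Fintype ι] (b : Module.Basis ι ℤ (𝓞 K)) (ε : ℝ) (hε : 0 < ε) :
    ∃ L : ℕ, ∀ (a : ι ⊕ ι → ℤ) (T : ι ⊕ ι → ℕ), (∀ i, L ≤ T i) →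
      {z : ι ⊕ ι → ℤ | (∀ i, a i ≤ z i ∧ z i < a i + T i) ∧ z ∈ Exc b}.Finite ∧
      ({z : ι ⊕ ι → ℤ | (∀ i, a i ≤ z i ∧ z i < a i + T i) ∧ z ∈ Exc b}.ncard : ℝ) ≤
        ε * ∏ i, (T i : ℝ) := by
  classical
  choose G hG using exists_Gq b
  refine density_uniform (ι ⊕ ι) (Exc b) (1 / 2 ^ Module.finrank ℚ K) (by positivity) (PP K) G ?_
    (fun q hq hP => (hG q hq hP).1) (fun q hq hP => (hG q hq hP).2) ε hε
  intro R
  obtain ⟨S, hS, hR⟩ := deg24 K 0 R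
  exact ⟨S, fun q hq => ⟨(hS q hq).1, (hS q hq).2.2.1, (hS q hq).2.2.2.1, (hS q hq).2.2.2.2⟩, hR⟩

/-- The exceptional curves have density zero in the boxes `[-T, T] ^ (2 n)`. -/
theorem main_tendsto (K : Type) [Field K] [NumberField K] [IsTotallyComplex K] {ι : Type}
    [Fintype ι] (b : Module.Basis ι ℤ (𝓞 K)) :
    Tendsto (fun T : ℕ => ({z : ι ⊕ ι → ℤ | (∀ i, |z i| ≤ (T : ℤ)) ∧ z ∈ Exc b}.ncard : ℝ) /
      (2 * (T : ℝ) + 1) ^ Fintype.card (ι ⊕ ι)) atTop (𝓝 0) := by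
  classical
  choose G hG using exists_Gq b
  refine density_zero (ι ⊕ ι) (Exc b) (1 / 2 ^ Module.finrank ℚ K) (by positivity) (PP K) G ?_
    (fun q hq hP => (hG q hq hP).1) (fun q hq hP => (hG q hq hP).2)
  intro R
  obtain ⟨S, hS, hR⟩ := deg24 K 0 R
  exact ⟨S, fun q hq => ⟨(hS q hq).1, (hS q hq).2.2.1, (hS q hq).2.2.2.1, (hS q hq).2.2.2.2⟩, hR⟩

end Pool.Agent.SS.DD
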